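import Pool.Agent.Helper87.CSB.G1b

/-!
# The operator `tauk` is nonnegative
-/

namespace H50R

open H45C Equiv

variable {α : Type*} [DecidableEq α]

section gap

variable {X Y A B C : Finset α} {q h E : α}

theorem gap_ins {S T : Finset α} {x : α} (h : ∀ y ∈ X, y ∈ S → y ∉ T → y = x ∨ (y ∈ B ∧ y ∉ A)) :
    ((S \ T) ∩ X).card ≤ ((B \ A) ∩ X).card + 1 := by
  refine (Finset.card_le_card (t := insert x ((B \ A) ∩ X)) ?_).trans
    (Finset.card_insert_le _ _)
  intro y hy
  rw [Finset.mem_inter, Finset.mem_sdiff] at hy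
  rcases h y hy.2 hy.1.1 hy.1.2 with rfl | h3
  · exact Finset.mem_insert_self _ _
  · exact Finset.mem_insert_of_mem (Finset.mem_inter.2 ⟨Finset.mem_sdiff.2 h3, hy.2⟩)

/-- the only letter of a gap -/
theorem gap_uniq (hE : E ∈ X) (hEB : E ∈ B) (hEA : E ∉ A) (h1 : ((B \ A) ∩ X).card ≤ 1)
    {y : α} (hy : y ∈ X) (hyB : y ∈ B) (hyA : y ∉ A) : y = E := by
  refine Finset.card_le_one.1 h1 y ?_ E ?_
  · exact Finset.mem_inter.2 ⟨Finset.mem_sdiff.2 ⟨hyB, hyA⟩, hy⟩
  · exact Finset.mem_inter.2 ⟨Finset.mem_sdiff.2 ⟨hEB, hEA⟩, hE⟩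

end gap

section heads

variable {Y A B C : Finset α} {q h E : α}

theorem tau_head_q (hh : q ∉ Y) (hqA : q ∈ A) (hAB : A ⊆ B) (hBC : B ⊆ C) {k : ℤ}
    (hk : (((B \ A) ∩ insert q Y).card : ℤ) + 1 ≤ k)
    (h2 : ((C \ B) ∩ insert q Y).card ≤ 1) {z : Wd α} (hz : z ∈ WS Y) (hn : WN z)
    (hE : E ∈ insert q Y) : WN (pr E (tauk (insert q Y) A B C q k (cns q z))) := by
  have hqB : q ∈ B := hAB hqA
  have hqC : q ∈ C := hBC hqB
  have hw : Hop (C.erase q) 1 z ∈ WS Y := Hop_mem _ _ hz
  have gY := card_le3 (A := A) (B := B) (Finset.subset_insert q Y)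
  have gY2 := card_le3 (A := B) (B := C) (Finset.subset_insert q Y)
  have h2' : (((C \ B) ∩ insert q Y).card : ℤ) ≤ 1 := by exact_mod_cast h2
  rw [tau_pr_q hh k hz]
  rcases Finset.mem_insert.1 hE with rfl | hEY
  · rw [rp_q_self hh hqA hAB k 2 hw, rp_q_self hh hqA hAB k 3 hz,
      Hop_er hh A k (Hop_mem _ _ hw), Hop_er hh A k (Hop_mem _ _ hz)]
    have g1 := card_er3 Y A B E
    have g2 := card_er3 Y B C E
    have p := R3_pos (X := Y) (Finset.erase_subset_erase E hAB) (Finset.erase_subset_erase E hBC)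
      (a := k) (b := 2) (c := 1) (by omega) (by norm_num) (by norm_num) (by omega)
      (fun h' => by norm_num at h') (fun _ => by omega) hz hn
    unfold R3 at p
    have e1 : (2 : ℤ) + 1 = 3 := by norm_num
    have e2 : k + 2 + 1 = k + 3 := by ring
    rw [e1, e2] at p
    convert p using 1
    abel
  · have hEq : E ≠ q := fun h' => hh (h' ▸ hEY)
    have hzE : rl (swap E q) z ∈ WS ((insert q Y).erase E) := swap_mem hh hEY hz
    have hnE : WN (rl (swap E q) z) := WN_rl _ hn
    have gZ := card_le3 (A := A) (B := B) (Finset.erase_subset E (insert q Y))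
    have gZ2 := card_le3 (A := B) (B := C) (Finset.erase_subset E (insert q Y))
    by_cases hEA : E ∈ A
    · rw [rp_q_A hh hqA hAB hEY hEA k 2 hw, rp_q_A hh hqA hAB hEY hEA k 3 hz, sub_zero]
      exact WN.zero
    by_cases hEB : E ∈ B
    · have hEC := hBC hEB
      have g := card_lt3 (A := A) hE hEB hEA
      rw [rp_q_B hh hqA hAB hEY hEA hEB k 2 hw, rp_q_B hh hqA hAB hEY hEA hEB k 3 hz,
        cj_in hh (Finset.mem_erase.2 ⟨hEq, hEC⟩) 1 hz, Finset.insert_erase hqC]
      have p := R3_pos (X := (insert q Y).erase E) hAB hBC (a := k - 1) (b := 2) (c := 1)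
        (by omega) (by norm_num) (by norm_num) (by omega)
        (fun h' => by norm_num at h') (fun _ => by omega) hzE hnE
      unfold R3 at p
      have e1 : (2 : ℤ) + 1 = 3 := by norm_num
      have e2 : k - 1 + 2 + 1 = k + 3 - 1 := by ring
      have e3 : k - 1 + 2 = k + 2 - 1 := by ring
      rw [e1, e2, e3] at p
      convert p using 1
      abel
    · rw [rp_q_O hh hqA hAB hEY hEB k 2 hw, rp_q_O hh hqA hAB hEY hEB k 3 hz, ← map_sub]
      by_cases hEC : E ∈ C
      · rw [cj_in hh (Finset.mem_erase.2 ⟨hEq, hEC⟩) 1 hz, Finset.insert_erase hqC]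
        have g : ((C \ B.erase q) ∩ (insert q Y).erase E).card ≤
            ((C \ B) ∩ (insert q Y).erase E).card + 1 := by
          refine gap_ins (x := q) fun y _ hyC hyB => ?_
          by_cases hyq : y = q
          · exact Or.inl hyq
          · exact Or.inr ⟨hyC, fun h' => hyB (Finset.mem_erase.2 ⟨hyq, h'⟩)⟩
        have p := two_pos (X := (insert q Y).erase E) (A := B.erase q) (B := C)
          ((Finset.erase_subset q B).trans hBC) (a := 2) (b := 1) (by norm_num) (by norm_num)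
          (by omega) hzE hnE
        have e1 : (2 : ℤ) + 1 = 3 := by norm_num
        rw [e1] at p
        refine WN_Hop3 A (k - 1) (X := (insert q Y).erase E) ?_ p
        exact Submodule.sub_mem _ (Hop_mem _ _ (Hop_mem _ _ hzE)) (Hop_mem _ _ hzE)
      · rw [cj_out3 hh (fun h' => hEC (Finset.mem_of_mem_erase h')) 1 hz, Finset.erase_idem]
        have g := card_er3 ((insert q Y).erase E) B C q
        have p := two_pos (X := (insert q Y).erase E) (A := B.erase q) (B := C.erase q)
          (Finset.erase_subset_erase q hBC) (a := 2) (b := 1) (by norm_num) (by norm_num)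
          (by omega) hzE hnE
        have e1 : (2 : ℤ) + 1 = 3 := by norm_num
        rw [e1] at p
        refine WN_Hop3 A (k - 1) (X := (insert q Y).erase E) ?_ p
        exact Submodule.sub_mem _ (Hop_mem _ _ (Hop_mem _ _ hzE)) (Hop_mem _ _ hzE)

theorem tau_head_p {n : ℕ} (ih : TauIH n α) (hh : h ∉ Y) (hYc : Y.card = n) (hqA : q ∈ A)
    (hAB : A ⊆ B) (hBC : B ⊆ C) (hq : q ∈ Y) (hhA : h ∈ A) {k : ℤ}
    (hk : (((B \ A) ∩ insert h Y).card : ℤ) + 1 ≤ k) (h1 : ((B \ A) ∩ insert h Y).card ≤ 1)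
    (h2 : ((C \ B) ∩ insert h Y).card ≤ 1) {z : Wd α} (hz : z ∈ WS Y) (hn : WN z)
    (hE : E ∈ insert h Y) : WN (pr E (tauk (insert h Y) A B C q k (cns h z))) := by
  have hhB := hAB hhA
  have hhC := hBC hhB
  have hqB : q ∈ B := hAB hqA
  have hqC : q ∈ C := hBC hqB
  have hqX : q ∈ insert h Y := Finset.mem_insert_of_mem hq
  have hhX : h ∈ insert h Y := Finset.mem_insert_self _ _
  have hqh : q ≠ h := fun h' => hh (h' ▸ hq)
  have hhq : h ≠ q := hqh.symm
  have hhs : h ∉ B \ A := fun h' => (Finset.mem_sdiff.1 h').2 hhA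
  have hw : Hop (C.erase q) 1 z ∈ WS Y := Hop_mem _ _ hz
  have hX : insert h Y = insert q ((insert h Y).erase q) := (Finset.insert_erase hqX).symm
  have hq' : q ∉ (insert h Y).erase q := Finset.notMem_erase _ _
  have hzq : rl (swap q h) z ∈ WS ((insert h Y).erase q) := swap_mem hh hq hz
  have hnq : WN (rl (swap q h) z) := WN_rl _ hn
  have gY := card_le3 (A := A) (B := B) (Finset.subset_insert h Y)
  have gY2 := card_le3 (A := B) (B := C) (Finset.subset_insert h Y)
  have h1' : (((B \ A) ∩ insert h Y).card : ℤ) ≤ 1 := by exact_mod_cast h1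
  have h2' : (((C \ B) ∩ insert h Y).card : ℤ) ≤ 1 := by exact_mod_cast h2
  rw [tau_pr hh hqA hAB hBC hq k hz hE, if_pos hhC]
  rcases Finset.mem_insert.1 hE with rfl | hEY
  · -- the same letter
    have t := rp_q_A (E := E) hq' hqA hAB (Finset.mem_erase.2 ⟨hhq, hhX⟩) hhA k 2 hzq
    rw [← hX] at t
    rw [t, if_pos hhC, rp_self hh hqA hAB hq hhs k 2 hw, rp_self hh hqA hAB hq hhs k 3 hz,
      add_zero, add_zero]
    exact ih Y hYc A B C q k hqA hAB hBC hq (by omega) (by omega) (by omega) z hz hn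
  have hEh : E ≠ h := fun h' => hh (h' ▸ hEY)
  by_cases hEq : E = q
  · subst hEq
    have t := rp_q_self hq' hqA hAB k 2 hzq
    rw [← hX] at t
    rw [t, if_pos hqC, rp_to_q hh hqA hAB hq hhB k 2 hw, rp_to_q hh hqA hAB hq hhB k 3 hz,
      add_zero, cj_out3 hh (Finset.notMem_erase E C) 1 hz]
    have e1 : (2 : ℤ) - 1 = 1 := by norm_num
    have e2 : (3 : ℤ) - 1 = 2 := by norm_num
    rw [e1, e2, sub_add_cancel]
    have gZ := card_le3 (A := A) (B := B) (Finset.erase_subset E (insert h Y))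
    exact two_er hAB hq' (by omega) (by norm_num) (by omega) (Hop_mem _ _ hzq)
      (WN_Hop3 _ _ hzq hnq)
  have hEX : E ∈ (insert h Y).erase q := Finset.mem_erase.2 ⟨hEq, hE⟩
  by_cases hEA : E ∈ A
  · have t := rp_q_A (E := E) hq' hqA hAB hEX hEA k 2 hzq
    rw [← hX] at t
    rw [t, if_pos (hBC (hAB hEA)), rp_A hh hqA hAB hq hEY hEq hEA k 2 hw,
      rp_A hh hqA hAB hq hEY hEq hEA k 3 hz, sub_zero, add_zero, add_zero]
    exact WN.zero
  have hzE : rl (swap E h) z ∈ WS ((insert h Y).erase E) := swap_mem hh hEY hz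
  have hnE : WN (rl (swap E h) z) := WN_rl _ hn
  have hZc : ((insert h Y).erase E).card = n := by
    rw [Finset.card_erase_of_mem hE, Finset.card_insert_of_notMem hh, hYc]
    rfl
  have gZ := card_le3 (A := A) (B := B) (Finset.erase_subset E (insert h Y))
  have gZ2 := card_le3 (A := B) (B := C) (Finset.erase_subset E (insert h Y))
  have hqZ : q ∈ (insert h Y).erase E := Finset.mem_erase.2 ⟨fun h' => hEq h'.symm, hqX⟩
  have hhZ : h ∈ (insert h Y).erase E := Finset.mem_erase.2 ⟨hEh.symm, hhX⟩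
  have s1 : rl (swap E q) (rl (swap q h) z) = rl (swap q h) (rl (swap E h) z) := by
    rw [rl_rl, rl_rl, sw1 hEh hqh hEq]
  by_cases hEB : E ∈ B
  · have hEC := hBC hEB
    have g := card_lt3 (A := A) hE hEB hEA
    have t := rp_q_B (E := E) hq' hqA hAB hEX hEA hEB k 2 hzq
    rw [← hX] at t
    rw [t, if_pos hEC, rp_p_B hh hqA hAB hq hEY hhA hEA hEB k 2 hw,
      rp_p_B hh hqA hAB hq hEY hhA hEA hEB k 3 hz, s1, add_zero,
      cj_both3 hh (Finset.mem_erase.2 ⟨hhq, hhC⟩) (Finset.mem_erase.2 ⟨hEq, hEC⟩) 1 hz]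
    have hy : rl (swap q h) (Hop (C.erase q) 1 (rl (swap E h) z)) ∈
        WS ((insert h Y).erase E) := rl_swap_mem hqZ hhZ (Hop_mem _ _ hzE)
    have hny : WN (rl (swap q h) (Hop (C.erase q) 1 (rl (swap E h) z))) :=
      WN_rl _ (WN_Hop3 _ _ hzE hnE)
    have p1 := ih _ hZc A B C q (k - 1) hqA hAB hBC hqZ (by omega) (by omega) (by omega) _ hzE
      hnE
    have p2 := two_pos hAB (a := k - 1) (b := 1) (by omega) (by norm_num) (by omega) hy hny
    have p3 := WN.add p1 p2
    unfold tauk at p3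
    have e1 : (2 : ℤ) - 1 = 1 := by norm_num
    have e2 : (3 : ℤ) - 1 = 2 := by norm_num
    have e3 : k + 2 - 2 = k - 1 + 1 := by ring
    have e4 : k + 3 - 2 = k + 2 - 1 := by ring
    rw [e1, e2, e3, e4]
    convert p3 using 1
    abel
  · have t := rp_q_O (E := E) hq' hqA hAB hEX hEB k 2 hzq
    rw [← hX] at t
    rw [t, rp_p_O hh hqA hAB hq hEY hhA hEB k 2 hw, rp_p_O hh hqA hAB hq hEY hhA hEB k 3 hz, s1]
    have e1 : (2 : ℤ) - 1 = 1 := by norm_num
    have e2 : (3 : ℤ) - 1 = 2 := by norm_num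
    have e3 : (2 : ℤ) + 1 = 3 := by norm_num
    rw [e1, e2]
    by_cases hEC : E ∈ C
    · rw [if_pos hEC, add_zero,
        cj_both3 hh (Finset.mem_erase.2 ⟨hhq, hhC⟩) (Finset.mem_erase.2 ⟨hEq, hEC⟩) 1 hz]
      have hcg : Hop (C.erase q) 1 (rl (swap E h) z) =
          Hop (B.erase q) 1 (rl (swap E h) z) := by
        refine Hop_congr (fun x hx => ?_) 1 hzE
        rw [Finset.mem_erase, Finset.mem_erase]
        refine and_congr_right fun _ => ⟨fun hxC => ?_, fun h' => hBC h'⟩
        by_contra hxB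
        have hxX := Finset.mem_of_mem_erase hx
        exact (Finset.mem_erase.1 hx).1 (gap_uniq hE hEC hEB h2 hxX hxC hxB)
      have hy : rl (swap q h) (Hop (C.erase q) 1 (rl (swap E h) z)) ∈
          WS ((insert h Y).erase E) := rl_swap_mem hqZ hhZ (Hop_mem _ _ hzE)
      have hny : WN (rl (swap q h) (Hop (C.erase q) 1 (rl (swap E h) z))) :=
        WN_rl _ (WN_Hop3 _ _ hzE hnE)
      have p1 : WN (R3 A B B k 1 1 (rl (swap E h) z)) := by
        refine R3_pos (X := (insert h Y).erase E) hAB (Finset.Subset.refl B) (by omega)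
          (by norm_num) (by norm_num) ?_ (fun _ => by omega) (fun h' => absurd rfl h') hzE hnE
        rw [Finset.sdiff_self, Finset.empty_inter, Finset.card_empty]
        norm_num
      rw [← tau_one hqA hAB hqZ k hzE, ← hcg] at p1
      have g : ((C.erase q \ (B.erase q).erase h) ∩ (insert h Y).erase E).card ≤
          ((C \ B) ∩ (insert h Y).erase E).card + 1 := by
        refine gap_ins (x := h) fun y _ hyC hyB => ?_
        by_cases hyh : y = h
        · exact Or.inl hyh
        · obtain ⟨hyq, hyC⟩ := Finset.mem_erase.1 hyC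
          exact Or.inr ⟨hyC, fun h' =>
            hyB (Finset.mem_erase.2 ⟨hyh, Finset.mem_erase.2 ⟨hyq, h'⟩⟩)⟩
      have p2 := two_pos (X := (insert h Y).erase E) (A := (B.erase q).erase h)
        (B := C.erase q) ((Finset.erase_subset _ _).trans (Finset.erase_subset_erase q hBC))
        (a := 2) (b := 1) (by norm_num) (by norm_num) (by omega) hzE hnE
      rw [e3] at p2
      have p3 := WN_Hop3 A (k - 1) (X := (insert h Y).erase E)
        (Submodule.sub_mem _ (Hop_mem _ _ (Hop_mem _ _ hzE)) (Hop_mem _ _ hzE)) p2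
      rw [map_sub] at p3
      have p4 := WN_Hop3 A (k - 1) (Hop_mem (B.erase q) 1 hy) (WN_Hop3 _ _ hy hny)
      have p5 := WN.add (WN.add p1 p3) p4
      convert p5 using 1
      abel
    · rw [if_neg hEC, cj_out3 hh (fun h' => hEC (Finset.mem_of_mem_erase h')) 1 hz]
      have hv : Hop ((C.erase q).erase h) 1 (rl (swap E h) z) ∈ WS ((insert h Y).erase E) :=
        Hop_mem _ _ hzE
      have hnv : WN (Hop ((C.erase q).erase h) 1 (rl (swap E h) z)) := WN_Hop3 _ _ hzE hnE
      have hy : rl (swap q h) (Hop ((C.erase q).erase h) 1 (rl (swap E h) z)) ∈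
          WS ((insert h Y).erase E) := rl_swap_mem hqZ hhZ hv
      have hny := WN_rl (swap q h) hnv
      have p1 := rho_pos hqA hAB hqZ (k := k) (e := 1) (by omega) (by norm_num) hv hnv
      have g : (((C.erase q).erase h \ (B.erase q).erase h) ∩ (insert h Y).erase E).card ≤
          ((C \ B) ∩ (insert h Y).erase E).card + 1 := by
        refine gap_ins (x := h) fun y _ hyC hyB => ?_
        by_cases hyh : y = h
        · exact Or.inl hyh
        · obtain ⟨hyq, hyC⟩ := Finset.mem_erase.1 (Finset.mem_of_mem_erase hyC)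
          exact Or.inr ⟨hyC, fun h' =>
            hyB (Finset.mem_erase.2 ⟨hyh, Finset.mem_erase.2 ⟨hyq, h'⟩⟩)⟩
      have p2 := two_pos (X := (insert h Y).erase E) (A := (B.erase q).erase h)
        (B := (C.erase q).erase h) (Finset.erase_subset_erase h (Finset.erase_subset_erase q hBC))
        (a := 2) (b := 1) (by norm_num) (by norm_num) (by omega) hzE hnE
      rw [e3] at p2
      have p3 := WN_Hop3 A (k - 1) (X := (insert h Y).erase E)
        (Submodule.sub_mem _ (Hop_mem _ _ (Hop_mem _ _ hzE)) (Hop_mem _ _ hzE)) p2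
      rw [map_sub] at p3
      have p4 := WN_Hop3 A (k - 1) (Hop_mem (B.erase q) 1 hy) (WN_Hop3 _ _ hy hny)
      have p5 := WN.add (WN.add p1 p3) p4
      convert p5 using 1
      abel

end heads

/-- the operator `tauk` -/
noncomputable def tauE (X A B C : Finset α) (q : α) (k : ℤ) : Module.End ℤ (Wd α) :=
  rhoE X A B q k 2 * Hop (C.erase q) 1 - rhoE X A B q k 3

theorem tauE_apply (X A B C : Finset α) (q : α) (k : ℤ) (z : Wd α) :
    tauE X A B C q k z = tauk X A B C q k z := by
  unfold tauE tauk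
  rw [LinearMap.sub_apply, Module.End.mul_apply, rhoE_apply, rhoE_apply]

theorem tau_pos_aux (n : ℕ) : TauIH n α := by
  induction n with
  | zero =>
    intro X hX A B C q k _ _ _ hq
    rw [Finset.card_eq_zero] at hX
    rw [hX] at hq
    simp at hq
  | succ n ih =>
    intro X hX A B C q k hqA hAB hBC hqX hk h1 h2 z hz hn
    rw [← tauE_apply]
    refine WN_of_words (tauE X A B C q k) ?_ hz hn
    intro u hu huX
    rw [tauE_apply]
    clear hz hn z
    match u, hu, huX with
    | [], _, huX =>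
      rw [List.toFinset_nil] at huX
      rw [← huX] at hX
      simp at hX
    | h :: u, hu, huX =>
      obtain ⟨hq', hu'⟩ := List.nodup_cons.1 hu
      obtain ⟨Y, hY⟩ : ∃ Y, Y = u.toFinset := ⟨_, rfl⟩
      have hh : h ∉ Y := fun h' => hq' (List.mem_toFinset.1 (hY ▸ h'))
      have hXi : X = insert h Y := by
        rw [← huX, List.toFinset_cons, hY]
      have hz : wd u ∈ WS Y := wd_mem u hu' hY.symm
      have hn : WN (wd u) := WN.wd u
      rw [← cns_wd]
      generalize wd u = z at hz hn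
      clear hu hq' hu' huX hY u
      subst hXi
      have hYc : Y.card = n := by
        rw [Finset.card_insert_of_notMem hh] at hX
        omega
      have hm : tauk (insert h Y) A B C q k (cns h z) ∈ WS (insert h Y) := by
        unfold tauk
        exact Submodule.sub_mem _ (rho_mem A B k 2 hqX (Hop_mem _ _ (cns_mem hh hz)))
          (rho_mem A B k 3 hqX (cns_mem hh hz))
      refine WN_of_pr ⟨h, Finset.mem_insert_self _ _⟩ hm ?_
      intro E hE
      by_cases hqh : q = h
      · subst hqh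
        exact tau_head_q hh hqA hAB hBC hk h2 hz hn hE
      · have hq : q ∈ Y := (Finset.mem_insert.1 hqX).resolve_left hqh
        by_cases hhA : h ∈ A
        · exact tau_head_p ih hh hYc hqA hAB hBC hq hhA hk h1 h2 hz hn hE
        · exact tau_head_b ih hh hYc hqA hAB hBC hq hhA hk h1 h2 hz hn hE

/-- G1 -/
theorem tau_pos {X A B C : Finset α} {q : α} (hqA : q ∈ A) (hAB : A ⊆ B) (hBC : B ⊆ C)
    (hq : q ∈ X) {k : ℤ} (hk : (((B \ A) ∩ X).card : ℤ) + 1 ≤ k) (h1 : ((B \ A) ∩ X).card ≤ 1)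
    (h2 : ((C \ B) ∩ X).card ≤ 1) {z : Wd α} (hz : z ∈ WS X) (hn : WN z) :
    WN (tauk X A B C q k z) :=
  tau_pos_aux _ X rfl A B C q k hqA hAB hBC hq hk h1 h2 z hz hn

end H50R
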