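import Pool.Agent.Helper10.CSB.Q3
import Pool.Agent.Helper50.CSB.G0

/-!
# The first letters of `rho` and of `tauk`
-/

namespace H50R

open H45C Equiv

variable {α : Type*} [DecidableEq α]

section rp

variable {Y A B C : Finset α} {q h E : α}

theorem rp_ex (X A B : Finset α) (q E : α) (k e : ℤ) (y : Wd α) :
    pr E (rho X A B q k e y) =
      pr E (Hop A k (Hop (B.erase q) e y)) - pr E (Hop (A.erase q) (k + e) y) -
        pr E (∑ l ∈ (B \ A) ∩ X, Hop A (k + e - 1) (rl (swap q l) y)) := by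
  unfold rho
  rw [map_sub, map_sub]

/-- first letter `q`, the same letter -/
theorem rp_q_self (hh : q ∉ Y) (hqA : q ∈ A) (hAB : A ⊆ B) (k e : ℤ) {z : Wd α} (hz : z ∈ WS Y) :
    pr q (rho (insert q Y) A B q k e (cns q z)) =
      Hop A k (Hop (B.erase q) e z) - Hop (A.erase q) (k + e) z := by
  have _ := hAB
  rw [rp_ex, t3q hh hqA (k + e - 1) hz (Finset.mem_insert_self _ _),
    pr_two_self hh A _ k e hz, if_neg fun h' => h'.1 hqA, add_zero,
    pr_Hop_self hh _ _ hz, if_neg fun h' => (Finset.mem_sdiff.1 h').2 hqA, sub_zero]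

theorem rp_q_ne (hh : q ∉ Y) (hqA : q ∈ A) (hAB : A ⊆ B) (hE : E ∈ Y) (k e : ℤ)
    {z : Wd α} (hz : z ∈ WS Y) :
    pr E (rho (insert q Y) A B q k e (cns q z)) =
      (if q ∈ A ∧ E ∉ A then Hop A (k - 1) (rl (swap E q) (Hop (B.erase q) e z)) else 0) -
        if E ∈ B \ A then Hop A (k + e - 1) (rl (swap E q) z) else 0 := by
  rw [rp_ex, t3q hh hqA (k + e - 1) hz (Finset.mem_insert_of_mem hE),
    pr_two_ne hh hE A _ k e hz, sing0 hAB hh, Finset.sum_empty, ite_self, add_zero,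
    if_neg (fun h' => Finset.notMem_erase q B h'.1 : ¬ (q ∈ B.erase q ∧ E ∉ B.erase q)),
    add_zero, pr_Hop_ne hh hE _ _ hz,
    if_neg (fun h' => Finset.notMem_erase q A h'.1 : ¬ (q ∈ A.erase q ∧ E ∉ A.erase q)),
    sub_zero]

theorem rp_q_A (hh : q ∉ Y) (hqA : q ∈ A) (hAB : A ⊆ B) (hE : E ∈ Y) (hEA : E ∈ A) (k e : ℤ)
    {z : Wd α} (hz : z ∈ WS Y) :
    pr E (rho (insert q Y) A B q k e (cns q z)) = 0 := by
  rw [rp_q_ne hh hqA hAB hE k e hz, if_neg fun h' => h'.2 hEA,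
    if_neg fun h' => (Finset.mem_sdiff.1 h').2 hEA, sub_zero]

theorem rp_q_B (hh : q ∉ Y) (hqA : q ∈ A) (hAB : A ⊆ B) (hE : E ∈ Y) (hEA : E ∉ A) (hEB : E ∈ B)
    (k e : ℤ) {z : Wd α} (hz : z ∈ WS Y) :
    pr E (rho (insert q Y) A B q k e (cns q z)) =
      Hop A (k - 1) (Hop B e (rl (swap E q) z)) - Hop A (k + e - 1) (rl (swap E q) z) := by
  have hEq : E ≠ q := fun h' => hEA (h' ▸ hqA)
  rw [rp_q_ne hh hqA hAB hE k e hz, if_pos ⟨hqA, hEA⟩, if_pos (Finset.mem_sdiff.2 ⟨hEB, hEA⟩),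
    cj_in hh (Finset.mem_erase.2 ⟨hEq, hEB⟩) e hz, Finset.insert_erase (hAB hqA)]

theorem rp_q_O (hh : q ∉ Y) (hqA : q ∈ A) (hAB : A ⊆ B) (hE : E ∈ Y) (hEB : E ∉ B)
    (k e : ℤ) {z : Wd α} (hz : z ∈ WS Y) :
    pr E (rho (insert q Y) A B q k e (cns q z)) =
      Hop A (k - 1) (Hop (B.erase q) e (rl (swap E q) z)) := by
  have hEA : E ∉ A := fun h' => hEB (hAB h')
  rw [rp_q_ne hh hqA hAB hE k e hz, if_pos ⟨hqA, hEA⟩,
    if_neg fun h' => hEB (Finset.mem_sdiff.1 h').1, sub_zero,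
    cj_out3 hh (fun h' => hEB (Finset.mem_of_mem_erase h')) e hz, Finset.erase_idem]

/-- first letter `h` outside `B \ A`, the same letter -/
theorem rp_self (hh : h ∉ Y) (hqA : q ∈ A) (hAB : A ⊆ B) (hq : q ∈ Y) (hhB : h ∉ B \ A)
    (k e : ℤ) {z : Wd α} (hz : z ∈ WS Y) :
    pr h (rho (insert h Y) A B q k e (cns h z)) = rho Y A B q k e z := by
  rw [rp_ex, t1_self hh hqA hAB hq k e hz, pr_Hop_self hh _ _ hz,
    if_neg fun h' => hhB (Finset.mem_sdiff.2 ⟨h'.2, h'.1⟩), add_zero,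
    t3_self hh hq hhB (k + e - 1) hz]
  rfl

theorem rp_b_self (hh : h ∉ Y) (hqA : q ∈ A) (hAB : A ⊆ B) (hq : q ∈ Y) (hhA : h ∉ A)
    (hhB : h ∈ B) (k e : ℤ) {z : Wd α} (hz : z ∈ WS Y) :
    pr h (rho (insert h Y) A B q k e (cns h z)) = rho Y A B q k e z +
      (Hop A (k - 1) (Hop B (e - 1) z) - Hop A (k + e - 2) z) := by
  have e1 : k + e - 1 - 1 = k + e - 2 := by ring
  rw [rp_ex, t1_self hh hqA hAB hq k e hz, pr_Hop_self hh _ _ hz, if_pos ⟨hhA, hhB⟩,
    t3b_self hh hq hqA (Finset.mem_sdiff.2 ⟨hhB, hhA⟩) (k + e - 1) hz, e1]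
  unfold rho
  abel

/-- first letter `h` in `B`, the letter `q` -/
theorem rp_to_q (hh : h ∉ Y) (hqA : q ∈ A) (hAB : A ⊆ B) (hq : q ∈ Y) (hhB : h ∈ B)
    (k e : ℤ) {z : Wd α} (hz : z ∈ WS Y) :
    pr q (rho (insert h Y) A B q k e (cns h z)) =
      Hop A k (Hop (B.erase q) (e - 1) (rl (swap q h) z)) -
        Hop (A.erase q) (k + (e - 1)) (rl (swap q h) z) := by
  have hhq : h ≠ q := ne3 hh hq
  have hqB : q ∈ B := hAB hqA
  have e2 : k + e - 1 = k + (e - 1) := by ring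
  have hzE : rl (swap q h) z ∈ WS ((insert h Y).erase q) := swap_mem hh hq hz
  have a1 : (h ∈ A.erase q ∧ q ∉ A.erase q) ↔ h ∈ A := by
    rw [Finset.mem_erase, Finset.mem_erase]
    tauto
  rw [rp_ex, t1_ne hh hq hqA hAB hq k e hz, pr_Hop_ne hh hq _ _ hz]
  simp only [a1]
  by_cases hhA : h ∈ A
  · have hhs : h ∉ B \ A := fun h' => (Finset.mem_sdiff.1 h').2 hhA
    rw [t3_ne hh hq hq hhs (k + e - 1) hz]
    simp only [hhA, hhB, hqA, hqB, true_and, not_true_eq_false, or_false, if_false, if_true,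
      zero_add, add_zero, sub_zero, e2]
  · have hhs : h ∈ B \ A := Finset.mem_sdiff.2 ⟨hhB, hhA⟩
    rw [t3b_ne hh hq hqA hq hhs (k + e - 1) hz]
    simp only [hhA, hhB, hqA, hqB, false_and, true_and, not_true_eq_false, or_false, if_false,
      if_true, zero_add, add_zero, sub_zero]
    rw [e2, Hop_er (Finset.notMem_erase q (insert h Y)) A (k + (e - 1)) hzE]

/-- another letter of `A` -/
theorem rp_A (hh : h ∉ Y) (hqA : q ∈ A) (hAB : A ⊆ B) (hq : q ∈ Y) (hE : E ∈ Y) (hEq : E ≠ q)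
    (hEA : E ∈ A) (k e : ℤ) {z : Wd α} (hz : z ∈ WS Y) :
    pr E (rho (insert h Y) A B q k e (cns h z)) = 0 := by
  have hEB := hAB hEA
  have a1 : ¬ (h ∈ A.erase q ∧ E ∉ A.erase q) := by
    rw [Finset.mem_erase, Finset.mem_erase]
    tauto
  rw [rp_ex, t1_ne hh hE hqA hAB hq k e hz, pr_Hop_ne hh hE _ _ hz, if_neg a1]
  by_cases hhs : h ∈ B \ A
  · rw [t3b_ne hh hq hqA hE hhs (k + e - 1) hz]
    simp only [hEA, hEB, hEq, not_true_eq_false, or_false, and_false, if_false, zero_add,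
      sub_zero]
  · rw [t3_ne hh hq hE hhs (k + e - 1) hz]
    simp only [hEA, hEB, hEq, not_true_eq_false, or_false, and_false, if_false, zero_add,
      sub_zero]

/-- first letter outside `B` -/
theorem rp_o (hh : h ∉ Y) (hqA : q ∈ A) (hAB : A ⊆ B) (hq : q ∈ Y) (hE : E ∈ Y)
    (hhB : h ∉ B) (k e : ℤ) {z : Wd α} (hz : z ∈ WS Y) :
    pr E (rho (insert h Y) A B q k e (cns h z)) = 0 := by
  have hhA : h ∉ A := fun h' => hhB (hAB h')
  have hhs : h ∉ B \ A := fun h' => hhB (Finset.mem_sdiff.1 h').1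
  have a1 : ¬ (h ∈ A.erase q ∧ E ∉ A.erase q) := fun h' => hhA (Finset.mem_of_mem_erase h'.1)
  rw [rp_ex, t1_ne hh hE hqA hAB hq k e hz, pr_Hop_ne hh hE _ _ hz, if_neg a1,
    t3_ne hh hq hE hhs (k + e - 1) hz]
  simp only [hhA, hhB, false_and, if_false, add_zero, sub_zero]

theorem rp_p_B (hh : h ∉ Y) (hqA : q ∈ A) (hAB : A ⊆ B) (hq : q ∈ Y) (hE : E ∈ Y)
    (hhA : h ∈ A) (hEA : E ∉ A) (hEB : E ∈ B) (k e : ℤ) {z : Wd α} (hz : z ∈ WS Y) :
    pr E (rho (insert h Y) A B q k e (cns h z)) =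
      rho ((insert h Y).erase E) A B q (k - 1) e (rl (swap E h) z) +
      (Hop A (k - 1) (Hop B (e - 1) (rl (swap q h) (rl (swap E h) z))) -
        Hop A (k + e - 2) (rl (swap q h) (rl (swap E h) z))) := by
  have hqX : q ∈ insert h Y := Finset.mem_insert_of_mem hq
  have hEh : E ≠ h := fun h' => hh (h' ▸ hE)
  have hqh : q ≠ h := fun h' => hh (h' ▸ hq)
  have hhq : h ≠ q := hqh.symm
  have hqB : q ∈ B := hAB hqA
  have hhB := hAB hhA
  have hhs : h ∉ B \ A := fun h' => (Finset.mem_sdiff.1 h').2 hhA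
  have hEq : E ≠ q := fun h' => hEA (h' ▸ hqA)
  have hy : rl (swap q h) z ∈ WS ((insert h Y).erase q) := swap_mem hh hq hz
  have hq' : q ∉ (insert h Y).erase q := Finset.notMem_erase _ _
  have a1 : (h ∈ A.erase q ∧ E ∉ A.erase q) ↔ (h ∈ A ∧ (E = q ∨ E ∉ A)) := by
    rw [Finset.mem_erase, Finset.mem_erase]
    tauto
  have s1 : rl (swap E q) (rl (swap q h) z) = rl (swap q h) (rl (swap E h) z) := by
    rw [rl_rl, rl_rl, sw1 hEh hqh hEq]
  have s2 : ∀ l ∈ (B \ A) ∩ (insert h Y).erase E, l ∈ Y ∧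
      rl (swap E h) (rl (swap q l) z) = rl (swap q l) (rl (swap E h) z) := by
    intro l hl
    rw [Finset.mem_inter, Finset.mem_sdiff, Finset.mem_erase, Finset.mem_insert] at hl
    have hlh : l ≠ h := fun h' => hl.1.2 (h' ▸ hhA)
    refine ⟨hl.2.2.resolve_left hlh, ?_⟩
    rw [rl_rl, rl_rl, sw2 hEq hl.2.1.symm hhq hlh.symm]
  rw [rp_ex, t1_ne hh hE hqA hAB hq k e hz, pr_Hop_ne hh hE _ _ hz,
    t3_ne hh hq hE hhs (k + e - 1) hz]
  simp only [a1, hhA, hhB, hEA, hEB, hEq, true_and, false_or, not_false_eq_true,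
    not_true_eq_false, if_true, if_false, add_zero]
  rw [cj_both3 hh (Finset.mem_erase.2 ⟨hhq, hhB⟩) (Finset.mem_erase.2 ⟨hEq, hEB⟩)
    e hz, cj_in hq' (Finset.mem_erase.2 ⟨hEq, hEB⟩) (e - 1) hy, Finset.insert_erase hqB, s1]
  have hs : (B \ A) ∩ Y = insert E ((B \ A) ∩ (insert h Y).erase E) := by
    ext x
    simp only [Finset.mem_insert, Finset.mem_inter, Finset.mem_sdiff, Finset.mem_erase]
    constructor
    · rintro ⟨h1, h2⟩
      by_cases hxE : x = E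
      · exact Or.inl hxE
      · exact Or.inr ⟨h1, hxE, Or.inr h2⟩
    · rintro (rfl | ⟨h1, _, rfl | h2⟩)
      · exact ⟨⟨hEB, hEA⟩, hE⟩
      · exact absurd hhA h1.2
      · exact ⟨h1, h2⟩
  have s3 : rl (swap E h) (rl (swap q E) z) = rl (swap q h) (rl (swap E h) z) := by
    rw [rl_rl, rl_rl, sw3 hEh hqh hEq]
  have hs' : ∑ l ∈ (B \ A) ∩ Y, Hop A (k + e - 1 - 1) (rl (swap E h) (rl (swap q l) z)) =
      Hop A (k + e - 2) (rl (swap q h) (rl (swap E h) z)) +
      ∑ l ∈ (B \ A) ∩ (insert h Y).erase E,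
        Hop A (k - 1 + e - 1) (rl (swap q l) (rl (swap E h) z)) := by
    rw [hs, Finset.sum_insert (fun h' =>
      Finset.notMem_erase E _ (Finset.mem_inter.1 h').2), s3]
    have e3 : k + e - 1 - 1 = k + e - 2 := by ring
    have e4 : k - 1 + e - 1 = k + e - 2 := by ring
    rw [e3, e4]
    congr 1
    exact Finset.sum_congr rfl fun l hl => by rw [(s2 l hl).2]
  rw [hs']
  unfold rho
  have e5 : k - 1 + e = k + e - 1 := by ring
  rw [e5]
  abel

theorem rp_p_O (hh : h ∉ Y) (hqA : q ∈ A) (hAB : A ⊆ B) (hq : q ∈ Y) (hE : E ∈ Y)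
    (hhA : h ∈ A) (hEB : E ∉ B) (k e : ℤ) {z : Wd α} (hz : z ∈ WS Y) :
    pr E (rho (insert h Y) A B q k e (cns h z)) =
      rho ((insert h Y).erase E) A B q k (e - 1) (rl (swap E h) z) +
      Hop A (k - 1) (Hop ((B.erase q).erase h) e (rl (swap E h) z)) +
      Hop A (k - 1) (Hop (B.erase q) (e - 1) (rl (swap q h) (rl (swap E h) z))) := by
  have hEh : E ≠ h := fun h' => hh (h' ▸ hE)
  have hqh : q ≠ h := fun h' => hh (h' ▸ hq)
  have hhq : h ≠ q := hqh.symm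
  have hhB := hAB hhA
  have hEA : E ∉ A := fun h' => hEB (hAB h')
  have hhs : h ∉ B \ A := fun h' => (Finset.mem_sdiff.1 h').2 hhA
  have hEq : E ≠ q := fun h' => hEA (h' ▸ hqA)
  have hy : rl (swap q h) z ∈ WS ((insert h Y).erase q) := swap_mem hh hq hz
  have hq' : q ∉ (insert h Y).erase q := Finset.notMem_erase _ _
  have a1 : (h ∈ A.erase q ∧ E ∉ A.erase q) ↔ (h ∈ A ∧ (E = q ∨ E ∉ A)) := by
    rw [Finset.mem_erase, Finset.mem_erase]
    tauto
  have s1 : rl (swap E q) (rl (swap q h) z) = rl (swap q h) (rl (swap E h) z) := by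
    rw [rl_rl, rl_rl, sw1 hEh hqh hEq]
  have s2 : ∀ l ∈ (B \ A) ∩ (insert h Y).erase E, l ∈ Y ∧
      rl (swap E h) (rl (swap q l) z) = rl (swap q l) (rl (swap E h) z) := by
    intro l hl
    rw [Finset.mem_inter, Finset.mem_sdiff, Finset.mem_erase, Finset.mem_insert] at hl
    have hlh : l ≠ h := fun h' => hl.1.2 (h' ▸ hhA)
    refine ⟨hl.2.2.resolve_left hlh, ?_⟩
    rw [rl_rl, rl_rl, sw2 hEq hl.2.1.symm hhq hlh.symm]
  rw [rp_ex, t1_ne hh hE hqA hAB hq k e hz, pr_Hop_ne hh hE _ _ hz,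
    t3_ne hh hq hE hhs (k + e - 1) hz]
  simp only [a1, hhA, hhB, hEA, hEB, hEq, true_and, false_or, not_false_eq_true, if_true]
  rw [cj_out3 hh (fun h' => hEB (Finset.mem_of_mem_erase h')) e hz,
    cj_out3 hq' (fun h' => hEB (Finset.mem_of_mem_erase h')) (e - 1) hy, s1,
    Finset.erase_idem]
  have hs : (B \ A) ∩ Y = (B \ A) ∩ (insert h Y).erase E := by
    ext x
    simp only [Finset.mem_insert, Finset.mem_inter, Finset.mem_sdiff, Finset.mem_erase]
    constructor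
    · rintro ⟨h1, h2⟩
      exact ⟨h1, fun h' => hEB (h' ▸ h1.1), Or.inr h2⟩
    · rintro ⟨h1, _, rfl | h2⟩
      · exact absurd hhA h1.2
      · exact ⟨h1, h2⟩
  have e1 : k + e - 1 - 1 = k + (e - 1) - 1 := by ring
  have e2 : k + e - 1 = k + (e - 1) := by ring
  have hs' : ∑ l ∈ (B \ A) ∩ Y, Hop A (k + e - 1 - 1) (rl (swap E h) (rl (swap q l) z)) =
      ∑ l ∈ (B \ A) ∩ (insert h Y).erase E,
        Hop A (k + (e - 1) - 1) (rl (swap q l) (rl (swap E h) z)) := by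
    rw [hs, e1]
    exact Finset.sum_congr rfl fun l hl => by rw [(s2 l hl).2]
  rw [hs', e2]
  unfold rho
  abel

theorem rp_b_O (hh : h ∉ Y) (hqA : q ∈ A) (hAB : A ⊆ B) (hq : q ∈ Y) (hE : E ∈ Y)
    (hhA : h ∉ A) (hhB : h ∈ B) (hEB : E ∉ B) (k e : ℤ) {z : Wd α} (hz : z ∈ WS Y) :
    pr E (rho (insert h Y) A B q k e (cns h z)) =
      Hop A k (Hop (B.erase q) (e - 1) (rl (swap E h) z)) +
      (Hop A (k - 1) (Hop (B.erase q) (e - 1) (rl (swap q h) (rl (swap E h) z))) -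
        Hop A (k + e - 2) (rl (swap q h) (rl (swap E h) z))) := by
  have hEh : E ≠ h := fun h' => hh (h' ▸ hE)
  have hqh : q ≠ h := fun h' => hh (h' ▸ hq)
  have hEA : E ∉ A := fun h' => hEB (hAB h')
  have hhs : h ∈ B \ A := Finset.mem_sdiff.2 ⟨hhB, hhA⟩
  have hEq : E ≠ q := fun h' => hEA (h' ▸ hqA)
  have hy : rl (swap q h) z ∈ WS ((insert h Y).erase q) := swap_mem hh hq hz
  have hq' : q ∉ (insert h Y).erase q := Finset.notMem_erase _ _
  have a1 : ¬ (h ∈ A.erase q ∧ E ∉ A.erase q) := fun h' => hhA (Finset.mem_of_mem_erase h'.1)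
  have s1 : rl (swap E q) (rl (swap q h) z) = rl (swap q h) (rl (swap E h) z) := by
    rw [rl_rl, rl_rl, sw1 hEh hqh hEq]
  rw [rp_ex, t1_ne hh hE hqA hAB hq k e hz, pr_Hop_ne hh hE _ _ hz, if_neg a1,
    t3b_ne hh hq hqA hE hhs (k + e - 1) hz]
  simp only [hhA, hhB, hEA, hEB, hEq, true_and, false_and, false_or, not_false_eq_true, if_true,
    if_false, zero_add, sub_zero]
  rw [cj_out3 hq' (fun h' => hEB (Finset.mem_of_mem_erase h')) (e - 1) hy, s1,
    Finset.erase_idem]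
  have e1 : k + e - 1 - 1 = k + e - 2 := by ring
  rw [e1]
  abel

/-- the operator `tauk`, first letter `h ≠ q` -/
theorem tau_pr (hh : h ∉ Y) (hqA : q ∈ A) (hAB : A ⊆ B) (hBC : B ⊆ C) (hq : q ∈ Y) (k : ℤ)
    {z : Wd α} (hz : z ∈ WS Y) (hE : E ∈ insert h Y) :
    pr E (tauk (insert h Y) A B C q k (cns h z)) =
      pr E (rho (insert h Y) A B q k 2 (cns h (Hop (C.erase q) 1 z))) -
      pr E (rho (insert h Y) A B q k 3 (cns h z)) +
      (if h ∈ C then pr E (rho (insert h Y) A B q k 2 (cns q (rl (swap q h) z))) +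
        (if E ∈ C then 0 else rho ((insert h Y).erase E) A B q k 2 (rl (swap E h) z))
      else 0) := by
  have hhq : h ≠ q := ne3 hh hq
  have hqC : q ∈ C := hBC (hAB hqA)
  have hqX : q ∈ insert h Y := Finset.mem_insert_of_mem hq
  have e1 : h ∈ C.erase q ↔ h ∈ C := by
    rw [Finset.mem_erase]
    exact ⟨fun h' => h'.2, fun h' => ⟨hhq, h'⟩⟩
  have e2 : Y \ C.erase q = insert q (Y \ C) := by
    ext x
    simp only [Finset.mem_sdiff, Finset.mem_erase, Finset.mem_insert]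
    constructor
    · rintro ⟨h1, h2⟩
      by_cases hx : x = q
      · exact Or.inl hx
      · exact Or.inr ⟨h1, fun h' => h2 ⟨hx, h'⟩⟩
    · rintro (rfl | ⟨h1, h2⟩)
      · exact ⟨hq, fun h' => h'.1 rfl⟩
      · exact ⟨h1, fun h' => h2 h'.2⟩
  have e3 : (1 : ℤ) - 1 = 0 := by norm_num
  unfold tauk
  rw [Hop_cns (C.erase q) 1 h Y z hz, map_sub, e2, e3]
  simp only [e1, Hop_zero, Module.End.one_apply]
  by_cases hhC : h ∈ C
  · rw [if_pos hhC, if_pos hhC, Finset.sum_insert fun h' => (Finset.mem_sdiff.1 h').2 hqC,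
      ← rhoE_apply, map_add, map_add, map_add, map_add, rhoE_apply, rhoE_apply, map_sum, map_sum]
    have key : ∑ D ∈ Y \ C, pr E (rhoE (insert h Y) A B q k 2 (cns D (rl (swap D h) z))) =
        if E ∈ C then 0 else rho ((insert h Y).erase E) A B q k 2 (rl (swap E h) z) := by
      have k1 : ∀ D ∈ Y \ C, pr E (rhoE (insert h Y) A B q k 2 (cns D (rl (swap D h) z))) =
          if D = E then rho ((insert h Y).erase E) A B q k 2 (rl (swap E h) z) else 0 := by
        intro D hD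
        obtain ⟨hDY, hDC⟩ := Finset.mem_sdiff.1 hD
        have hDB : D ∉ B := fun h' => hDC (hBC h')
        have hDX : D ∈ insert h Y := Finset.mem_insert_of_mem hDY
        have hDq : D ≠ q := fun h' => hDC (h' ▸ hqC)
        have hz' : rl (swap D h) z ∈ WS ((insert h Y).erase D) := swap_mem hh hDY hz
        have hD' : D ∉ (insert h Y).erase D := Finset.notMem_erase _ _
        have hq' : q ∈ (insert h Y).erase D := Finset.mem_erase.2 ⟨hDq.symm, hqX⟩
        have hX : insert h Y = insert D ((insert h Y).erase D) := (Finset.insert_erase hDX).symm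
        rw [rhoE_apply]
        by_cases hDE : D = E
        · subst hDE
          rw [if_pos rfl]
          have h3 := rp_self hD' hqA hAB hq' (fun h' => hDB (Finset.mem_sdiff.1 h').1) k 2 hz'
          rw [← hX] at h3
          exact h3
        · rw [if_neg hDE]
          have h3 := rp_o (E := E) hD' hqA hAB hq'
            (Finset.mem_erase.2 ⟨fun h' => hDE h'.symm, hE⟩) hDB k 2 hz'
          rw [← hX] at h3
          exact h3
      rw [Finset.sum_congr rfl k1, Finset.sum_ite_eq']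
      by_cases hEC : E ∈ C
      · rw [if_pos hEC, if_neg fun h' => (Finset.mem_sdiff.1 h').2 hEC]
      · rw [if_neg hEC, if_pos]
        rw [Finset.mem_sdiff]
        exact ⟨(Finset.mem_insert.1 hE).resolve_left fun h' => hEC (h' ▸ hhC), hEC⟩
    rw [key]
    abel
  · rw [if_neg hhC, if_neg hhC, add_zero, add_zero]

/-- the operator `tauk`, first letter `q` -/
theorem tau_pr_q (hh : q ∉ Y) (k : ℤ) {z : Wd α} (hz : z ∈ WS Y) :
    pr E (tauk (insert q Y) A B C q k (cns q z)) =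
      pr E (rho (insert q Y) A B q k 2 (cns q (Hop (C.erase q) 1 z))) -
      pr E (rho (insert q Y) A B q k 3 (cns q z)) := by
  have _ := hh
  unfold tauk
  rw [Hop_cns (C.erase q) 1 q Y z hz, if_neg (Finset.notMem_erase q C), add_zero, map_sub]

end rp

/-- the statement of the induction -/
def TauIH (n : ℕ) (α : Type*) [DecidableEq α] : Prop :=
  ∀ X : Finset α, X.card = n → ∀ (A B C : Finset α) (q : α) (k : ℤ), q ∈ A → A ⊆ B → B ⊆ C →
    q ∈ X → (((B \ A) ∩ X).card : ℤ) + 1 ≤ k → ((B \ A) ∩ X).card ≤ 1 →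
    ((C \ B) ∩ X).card ≤ 1 → ∀ z : Wd α, z ∈ WS X → WN z → WN (tauk X A B C q k z)

end H50R
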