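import Pool.Agent.Helper47.CSB.P1
import Pool.Agent.Helper4.CSB.P2
import Pool.Agent.Helper13.CSB.P3a

/-!
# The polynomials of lists of blocks represent Schubert classes
-/

namespace H50R

open H45C Equiv MvPolynomial

variable {m : ℕ}

theorem good_iff (B : List (ℕ × ℕ)) : Good m B ↔
    (∀ b ∈ B, 1 ≤ b.2 ∧ b.1 + b.2 ≤ m) ∧ B.Pairwise (fun b c => b.1 + b.2 ≤ c.1) := by
  induction B with
  | nil => simp [Good]
  | cons b L ih =>
    cases L with
    | nil => simp [Good]
    | cons c L =>
      rw [Good, ih]
      constructor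
      · rintro ⟨h1, h2, h3, h4⟩
        have hc := h3 c List.mem_cons_self
        refine ⟨?_, ?_⟩
        · intro x hx
          rcases List.mem_cons.1 hx with rfl | hx
          · exact ⟨h1, by omega⟩
          · exact h3 x hx
        · refine List.pairwise_cons.2 ⟨?_, h4⟩
          intro x hx
          rcases List.mem_cons.1 hx with rfl | hx
          · exact h2
          · have := (List.pairwise_cons.1 h4).1 x hx
            omega
      · rintro ⟨h1, h2⟩
        obtain ⟨h3, h4⟩ := List.pairwise_cons.1 h2
        exact ⟨(h1 b List.mem_cons_self).1, h3 c List.mem_cons_self,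
          fun x hx => h1 x (List.mem_cons_of_mem _ hx), h4⟩

theorem good_two {k a : ℕ} {B C : List (ℕ × ℕ)} (h : Good m (B ++ (k, a + 2) :: C)) :
    Good m (B ++ (k + 1, a + 1) :: C) := by
  rw [good_iff] at h ⊢
  obtain ⟨h1, h2⟩ := h
  rw [List.pairwise_append, List.pairwise_cons] at h2 ⊢
  obtain ⟨h3, ⟨h4, h5⟩, h6⟩ := h2
  refine ⟨?_, h3, ⟨?_, h5⟩, ?_⟩
  · intro b hb
    rcases List.mem_append.1 hb with hb | hb
    · exact h1 b (List.mem_append_left _ hb)
    · rcases List.mem_cons.1 hb with rfl | hb
      · have := h1 (k, a + 2) (List.mem_append_right _ List.mem_cons_self)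
        simp only at this ⊢
        omega
      · exact h1 b (List.mem_append_right _ (List.mem_cons_of_mem _ hb))
  · intro c hc
    have := h4 c hc
    simp only at this ⊢
    omega
  · intro b hb c hc
    rcases List.mem_cons.1 hc with rfl | hc
    · have := h6 b hb (k, a + 2) List.mem_cons_self
      simp only at this ⊢
      omega
    · exact h6 b hb c (List.mem_cons_of_mem _ hc)

theorem good_del {b : ℕ × ℕ} {B C : List (ℕ × ℕ)} (h : Good m (B ++ b :: C)) :
    Good m (B ++ C) := by
  rw [good_iff] at h ⊢
  obtain ⟨h1, h2⟩ := h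
  rw [List.pairwise_append, List.pairwise_cons] at h2
  rw [List.pairwise_append]
  obtain ⟨h3, ⟨h4, h5⟩, h6⟩ := h2
  refine ⟨?_, h3, h5, fun b hb c hc => h6 b hb c (List.mem_cons_of_mem _ hc)⟩
  intro x hx
  rcases List.mem_append.1 hx with hx | hx
  · exact h1 x (List.mem_append_left _ hx)
  · exact h1 x (List.mem_append_right _ (List.mem_cons_of_mem _ hx))

theorem isSchub_one : IsSchub (1 : WG m) (1 : Pol m) := by
  refine isSchub_step 1 1 (fun k hk => ?_) (fun k _ => ?_) ?_
  · simp only [Perm.coe_one, id_eq] at hk
    exact absurd hk (not_lt.2 (Fin.castSucc_lt_succ).le)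
  · exact dd1_unique k 1 0 (by rw [map_one, mul_zero, sub_self])
  · rw [map_one, if_pos rfl]

/-- a divided difference of `pb m B` -/
theorem dd1_pb_cases (n : ℕ)
    (ih : ∀ B : List (ℕ × ℕ), Good m B → (B.map Prod.snd).sum = n → IsSchub (vb m B) (pb m B))
    (B : List (ℕ × ℕ)) (h : Good m B) (hn : (B.map Prod.snd).sum = n + 1) (k : Fin m) :
    dd1 k (pb m B) = 0 ∨ IsSchub (vb m B * sg k) (dd1 k (pb m B)) := by
  by_cases hk : ∀ b ∈ B, b.1 ≠ (k : ℕ)
  · exact .inl (dd1_pb_of_ne k B hk)
  · push Not at hk
    obtain ⟨b, hb, hbk⟩ := hk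
    obtain ⟨B', C, rfl⟩ := List.append_of_mem hb
    obtain ⟨b1, b2⟩ := b
    simp only at hbk
    subst hbk
    have hb2 := ((good_iff _).1 h).1 _ (List.mem_append_right B' List.mem_cons_self)
    simp only at hb2
    match b2, hb2 with
    | 0, hb2 => omega
    | 1, hb2 =>
      by_cases hC : ∀ c ∈ C, c.1 ≠ (k : ℕ) + 1
      · right
        rw [dd1_pb_one k B' C h hC, vb_mul_one k B' C h hC]
        refine ih _ (good_del h) ?_
        rw [List.map_append, List.sum_append] at hn ⊢
        rw [List.map_cons, List.sum_cons] at hn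
        simp only at hn
        omega
      · left
        push Not at hC
        obtain ⟨c, hc, hck⟩ := hC
        cases C with
        | nil => simp at hc
        | cons c' C =>
          have hp := ((good_iff _).1 h).2
          rw [List.pairwise_append, List.pairwise_cons, List.pairwise_cons] at hp
          obtain ⟨-, ⟨h4, h5, -⟩, -⟩ := hp
          have h6 := h4 c' List.mem_cons_self
          have h7 : c'.1 = (k : ℕ) + 1 := by
            rcases List.mem_cons.1 hc with rfl | hc
            · exact hck
            · have h8 := h5 c hc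
              simp only at h6
              omega
          obtain ⟨c1, c2⟩ := c'
          simp only at h7
          subst h7
          exact dd1_pb_one_adj k B' C c2 h
    | a + 2, hb2 =>
      right
      rw [dd1_pb_two k B' C a h, vb_mul_two k B' C a h]
      refine ih _ (good_two h) ?_
      rw [List.map_append, List.sum_append, List.map_cons, List.sum_cons] at hn ⊢
      simp only at hn ⊢
      omega

theorem exists_dd1_pb (n : ℕ)
    (ih : ∀ B : List (ℕ × ℕ), Good m B → (B.map Prod.snd).sum = n → IsSchub (vb m B) (pb m B))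
    (B : List (ℕ × ℕ)) (h : Good m B) (hn : (B.map Prod.snd).sum = n + 1) :
    ∃ k : Fin m, IsSchub (vb m B * sg k) (dd1 k (pb m B)) := by
  rcases List.eq_nil_or_concat B with rfl | ⟨B', b, rfl⟩
  · simp at hn
  · rw [List.concat_eq_append] at h hn ⊢
    obtain ⟨k, b2⟩ := b
    have hb2 := ((good_iff _).1 h).1 _ (List.mem_append_right B' List.mem_cons_self)
    simp only at hb2
    refine ⟨⟨k, by omega⟩, ?_⟩
    match b2, hb2 with
    | 0, hb2 => omega
    | 1, hb2 =>
      have hC : ∀ c ∈ ([] : List (ℕ × ℕ)), c.1 ≠ ((⟨k, by omega⟩ : Fin m) : ℕ) + 1 := by simp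
      have e1 := dd1_pb_one (⟨k, by omega⟩ : Fin m) B' [] h hC
      have e2 := vb_mul_one (⟨k, by omega⟩ : Fin m) B' [] h hC
      simp only at e1 e2
      rw [e1, e2]
      refine ih _ (good_del h) ?_
      rw [List.map_append, List.sum_append] at hn ⊢
      simp only [List.map_cons, List.map_nil, List.sum_cons, List.sum_nil] at hn ⊢
      omega
    | a + 2, hb2 =>
      have e1 := dd1_pb_two (⟨k, by omega⟩ : Fin m) B' [] a h
      have e2 := vb_mul_two (⟨k, by omega⟩ : Fin m) B' [] a h
      simp only at e1 e2
      rw [e1, e2]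
      refine ih _ (good_two h) ?_
      rw [List.map_append, List.sum_append] at hn ⊢
      simp only [List.map_cons, List.map_nil, List.sum_cons, List.sum_nil] at hn ⊢
      omega

/-- from P1, P2 and `isSchub_weak`, by induction on the sum of the lengths -/
theorem isSchub_pb (B : List (ℕ × ℕ)) (h : Good m B) : IsSchub (vb m B) (pb m B) := by
  induction hn : (B.map Prod.snd).sum generalizing B with
  | zero =>
    cases B with
    | nil =>
      rw [pb_nil]
      exact isSchub_one
    | cons b L =>
      have hb := ((good_iff _).1 h).1 b List.mem_cons_self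
      rw [List.map_cons, List.sum_cons] at hn
      omega
  | succ n ih =>
    have h1 := inv_vb B h
    have h2 := pb_homog B h
    rw [hn] at h1 h2
    exact isSchub_weak (vb m B) (pb m B) n h1 h2
      (fun k => dd1_pb_cases n (fun B hB hs => ih B hB hs) B h hn k)
      (exists_dd1_pb n (fun B hB hs => ih B hB hs) B h hn)

end H50R
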