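import Pool.Agent.Helper45.CSB.Q1
import Pool.Agent.Helper48.CSB.Q2

/-!
# Two blocks: the operators `A_a B_b - A_{a+b}`, `rho` and `Dd`
-/

namespace H50R

open H45C Equiv

variable {α : Type*} [DecidableEq α]

/-- `A_a B_b - A_{a+b}` -/
theorem two_pos {X A B : Finset α} (hAB : A ⊆ B) {a b : ℤ} (ha : 0 ≤ a) (hb : 0 ≤ b)
    (hg : (((B \ A) ∩ X).card : ℤ) ≤ a) {z : Wd α} (hz : z ∈ WS X) (hn : WN z) :
    WN (Hop A a (Hop B b z) - Hop A (a + b) z) := by
  rcases hb.eq_or_lt with rfl | hb
  · rw [Hop_zero, add_zero, Module.End.one_apply, sub_self]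
    exact WN.zero
  rcases ha.eq_or_lt with rfl | ha
  · have h0 : (B \ A) ∩ X = ∅ := by
      rw [← Finset.card_eq_zero]
      omega
    have h1 : Hop B b z = Hop A b z := by
      refine Hop_congr (fun x hx => ⟨fun h => ?_, fun h => hAB h⟩) b hz
      by_contra hxA
      have : x ∈ (B \ A) ∩ X := Finset.mem_inter.2 ⟨Finset.mem_sdiff.2 ⟨h, hxA⟩, hx⟩
      rw [h0] at this
      simp at this
    rw [Hop_zero, zero_add, Module.End.one_apply, h1, sub_self]
    exact WN.zero
  · have h := rib_pos (X := X) (L := [((A, a) : Bl α), (B, b)]) ⟨hAB, ha, by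
      show (((B \ A) ∩ X).card : ℤ) ≤ a + ((0 : ℕ) : ℤ)
      push_cast
      omega, trivial⟩ hb hz hn
    rw [rib_cons, rib_single, rib_single] at h
    exact h

theorem rho_one {X A B : Finset α} {q : α} (hqA : q ∈ A) (hAB : A ⊆ B) (hq : q ∈ X) (k : ℤ)
    {z : Wd α} (hz : z ∈ WS X) :
    rho X A B q k 1 z = Hop A k (Hop B 1 z) - Hop A (k + 1) z := by
  unfold rho
  rw [Hop_id1 hqA hAB hq (k + 1) hz]
  have e : k + 1 - 1 = k := by ring
  rw [e]
  abel

theorem WN_Hop3 {X : Finset α} (S : Finset α) (k : ℤ) {z : Wd α} (hz : z ∈ WS X) (hn : WN z) :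
    WN (Hop S k z) := by
  refine WN_of_words (Hop S k) (fun u _ _ => ?_) hz hn
  rw [Hop_wd]
  exact WN_hop S u k

/-- the operator `rho` -/
noncomputable def rhoE (X A B : Finset α) (q : α) (k e : ℤ) : Module.End ℤ (Wd α) :=
  Hop A k * Hop (B.erase q) e - Hop (A.erase q) (k + e) -
    ∑ l ∈ (B \ A) ∩ X, Hop A (k + e - 1) * rl (swap q l)

theorem rhoE_apply (X A B : Finset α) (q : α) (k e : ℤ) (z : Wd α) :
    rhoE X A B q k e z = rho X A B q k e z := by
  unfold rhoE rho
  rw [LinearMap.sub_apply, LinearMap.sub_apply, LinearMap.sum_apply]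
  rfl

theorem rho_mem {X : Finset α} (A B : Finset α) {q : α} (k e : ℤ) (hq : q ∈ X) {z : Wd α}
    (hz : z ∈ WS X) : rho X A B q k e z ∈ WS X := by
  unfold rho
  refine Submodule.sub_mem _ (Submodule.sub_mem _ (Hop_mem _ _ (Hop_mem _ _ hz))
    (Hop_mem _ _ hz)) (Submodule.sum_mem _ fun l hl => Hop_mem _ _ ?_)
  exact rl_swap_mem hq (Finset.mem_inter.1 hl).2 hz

section perm

theorem sw1 {E q h : α} (h1 : E ≠ h) (h2 : q ≠ h) (h3 : E ≠ q) :
    swap E q * swap q h = swap q h * swap E h := by
  ext x
  simp only [Perm.mul_apply, swap_apply_def]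
  split_ifs <;> simp_all

theorem sw2 {E q h l : α} (h1 : E ≠ q) (h2 : E ≠ l) (h3 : h ≠ q) (h4 : h ≠ l) :
    swap E h * swap q l = swap q l * swap E h := by
  ext x
  simp only [Perm.mul_apply, swap_apply_def]
  split_ifs <;> simp_all

theorem sw3 {E q h : α} (h1 : E ≠ h) (h2 : q ≠ h) (h3 : E ≠ q) :
    swap E h * swap q E = swap q h * swap E h := by
  ext x
  simp only [Perm.mul_apply, swap_apply_def]
  split_ifs <;> simp_all

end perm

/-- the exchange of a letter of the set with a new letter -/
theorem cj_in {X : Finset α} {h E : α} (hh : h ∉ X) {S : Finset α} (h2 : E ∈ S)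
    (k : ℤ) {z : Wd α} (hz : z ∈ WS X) :
    rl (swap E h) (Hop S k z) = Hop (insert h S) k (rl (swap E h) z) := by
  refine rl_gen _ S (insert h S) ?_ k hz
  intro x hx
  have hxh : x ≠ h := fun h' => hh (h' ▸ hx)
  rcases eq_or_ne x E with rfl | hxE
  · rw [swap_apply_left]
    exact ⟨fun _ => Finset.mem_insert_self _ _, fun _ => h2⟩
  · rw [swap_apply_of_ne_of_ne hxE hxh, Finset.mem_insert]
    exact ⟨fun h' => Or.inr h', fun h' => h'.resolve_left hxh⟩

/-- the exchange of a letter of the set with a letter outside -/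
theorem cj_out3 {X : Finset α} {h E : α} (hh : h ∉ X) {S : Finset α} (h2 : E ∉ S) (k : ℤ)
    {z : Wd α} (hz : z ∈ WS X) :
    rl (swap E h) (Hop S k z) = Hop (S.erase h) k (rl (swap E h) z) := by
  refine rl_gen _ S (S.erase h) ?_ k hz
  intro x hx
  have hxh : x ≠ h := fun h' => hh (h' ▸ hx)
  rcases eq_or_ne x E with rfl | hxE
  · rw [swap_apply_left]
    exact ⟨fun h' => absurd h' h2, fun h' => absurd h' (Finset.notMem_erase _ _)⟩
  · rw [swap_apply_of_ne_of_ne hxE hxh, Finset.mem_erase]
    exact ⟨fun h' => ⟨hxh, h'⟩, fun h' => h'.2⟩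

theorem card_le3 {X Y A B : Finset α} (h : Y ⊆ X) :
    (((B \ A) ∩ Y).card : ℤ) ≤ ((B \ A) ∩ X).card := by
  exact_mod_cast Finset.card_le_card (Finset.inter_subset_inter_left h)

theorem card_lt3 {X A B : Finset α} {E : α} (hE : E ∈ X) (hEB : E ∈ B) (hEA : E ∉ A) :
    (((B \ A) ∩ X.erase E).card : ℤ) + 1 ≤ ((B \ A) ∩ X).card := by
  have h1 : (B \ A) ∩ X.erase E = ((B \ A) ∩ X).erase E := by
    rw [Finset.inter_erase]
  have h2 : E ∈ (B \ A) ∩ X := Finset.mem_inter.2 ⟨Finset.mem_sdiff.2 ⟨hEB, hEA⟩, hE⟩
  rw [h1]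
  exact_mod_cast (Finset.card_erase_add_one h2).le

theorem card_er3 (X A B : Finset α) (q : α) :
    (((B.erase q \ A.erase q) ∩ X).card : ℤ) ≤ ((B \ A) ∩ X).card := by
  refine Int.ofNat_le.2 (Finset.card_le_card ?_)
  intro x hx
  simp only [Finset.mem_inter, Finset.mem_sdiff, Finset.mem_erase] at hx ⊢
  exact ⟨⟨hx.1.1.2, fun h => hx.1.2 ⟨hx.1.1.1, h⟩⟩, hx.2⟩

/-- a letter that does not occur may be erased -/
theorem Hop_er {X : Finset α} {q : α} (hq : q ∉ X) (S : Finset α) (k : ℤ) {z : Wd α}
    (hz : z ∈ WS X) : Hop S k z = Hop (S.erase q) k z := by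
  refine Hop_congr (fun x hx => ?_) k hz
  have hxq : x ≠ q := fun h' => hq (h' ▸ hx)
  rw [Finset.mem_erase]
  exact ⟨fun h => ⟨hxq, h⟩, fun h => h.2⟩

/-- `A_k B'_e - A'_{k+e}`, without the letter `q` -/
theorem two_er {X A B : Finset α} {q : α} (hAB : A ⊆ B) (hq : q ∉ X) {k e : ℤ} (hk : 0 ≤ k)
    (he : 0 ≤ e) (hg : (((B \ A) ∩ X).card : ℤ) ≤ k) {z : Wd α} (hz : z ∈ WS X) (hn : WN z) :
    WN (Hop A k (Hop (B.erase q) e z) - Hop (A.erase q) (k + e) z) := by
  rw [Hop_er hq A k (Hop_mem _ _ hz)]
  exact two_pos (Finset.erase_subset_erase q hAB) hk he ((card_er3 X A B q).trans hg) hz hn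

theorem sing {Y A B : Finset α} {q : α} (hqA : q ∈ A) (hAB : A ⊆ B) (hq : q ∈ Y) :
    (Y ∩ A) \ B.erase q = {q} := by
  ext x
  simp only [Finset.mem_sdiff, Finset.mem_inter, Finset.mem_erase, Finset.mem_singleton]
  constructor
  · rintro ⟨h1, h2⟩
    by_contra h
    exact h2 ⟨h, hAB h1.2⟩
  · rintro rfl
    exact ⟨⟨hq, hqA⟩, fun h => h.1 rfl⟩

theorem sing0 {Y A B : Finset α} {q : α} (hAB : A ⊆ B) (hq : q ∉ Y) :
    (Y ∩ A) \ B.erase q = ∅ := by
  rw [Finset.sdiff_eq_empty_iff_subset]
  intro x hx
  rw [Finset.mem_inter] at hx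
  exact Finset.mem_erase.2 ⟨fun h => hq (h ▸ hx.1), hAB hx.2⟩

section t3

variable {Y A B : Finset α} {q h E : α}

/-- the sum, the first letter is `q` -/
theorem t3q (hq : q ∉ Y) (hqA : q ∈ A) (c : ℤ) {z : Wd α} (hz : z ∈ WS Y)
    (hE : E ∈ insert q Y) :
    pr E (∑ l ∈ (B \ A) ∩ insert q Y, Hop A c (rl (swap q l) (cns q z))) =
      if E ∈ B \ A then Hop A c (rl (swap E q) z) else 0 := by
  rw [map_sum]
  have key : ∀ l ∈ (B \ A) ∩ insert q Y, pr E (Hop A c (rl (swap q l) (cns q z))) =
      if E = l then Hop A c (rl (swap E q) z) else 0 := by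
    intro l hl
    rw [Finset.mem_inter, Finset.mem_sdiff, Finset.mem_insert] at hl
    have hlA : l ∉ A := hl.1.2
    have hlq : l ≠ q := fun h => hlA (h ▸ hqA)
    have hlY : l ∈ Y := hl.2.resolve_left hlq
    rw [rl_cns, swap_apply_left, swap_comm q l]
    have hy : rl (swap l q) z ∈ WS ((insert q Y).erase l) := swap_mem hq hlY hz
    have hl' : l ∉ (insert q Y).erase l := Finset.notMem_erase _ _
    by_cases hEl : E = l
    · subst hEl
      rw [if_pos rfl, pr_Hop_self hl' A c hy]
    · rw [if_neg hEl, pr_Hop_ne hl' (Finset.mem_erase.2 ⟨hEl, hE⟩) A c hy,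
        if_neg fun h' => hlA h'.1]
  rw [Finset.sum_congr rfl key, Finset.sum_ite_eq]
  by_cases h1 : E ∈ B \ A
  · rw [if_pos h1, if_pos (Finset.mem_inter.2 ⟨h1, hE⟩)]
  · rw [if_neg h1, if_neg fun h' => h1 (Finset.mem_inter.1 h').1]

theorem inter_ins (hh : h ∉ B \ A) : (B \ A) ∩ insert h Y = (B \ A) ∩ Y := by
  ext x
  simp only [Finset.mem_inter, Finset.mem_insert]
  constructor
  · rintro ⟨h1, rfl | h2⟩
    · exact absurd h1 hh
    · exact ⟨h1, h2⟩
  · rintro ⟨h1, h2⟩
    exact ⟨h1, Or.inr h2⟩

theorem ne3 {x : α} (hh : h ∉ Y) (hx : x ∈ Y) : h ≠ x := fun h' => hh (h' ▸ hx)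

theorem rl_cns_fix {l : α} (h1 : h ≠ q) (h2 : h ≠ l) (z : Wd α) :
    rl (swap q l) (cns h z) = cns h (rl (swap q l) z) := by
  rw [rl_cns, swap_apply_of_ne_of_ne h1 h2]

/-- the sum, the first letter is not in `B \ A` -/
theorem t3_ne (hh : h ∉ Y) (hq : q ∈ Y) (hE : E ∈ Y) (hhB : h ∉ B \ A) (c : ℤ) {z : Wd α}
    (hz : z ∈ WS Y) :
    pr E (∑ l ∈ (B \ A) ∩ insert h Y, Hop A c (rl (swap q l) (cns h z))) =
      if h ∈ A ∧ E ∉ A then
        ∑ l ∈ (B \ A) ∩ Y, Hop A (c - 1) (rl (swap E h) (rl (swap q l) z)) else 0 := by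
  rw [map_sum, inter_ins hhB]
  have key : ∀ l ∈ (B \ A) ∩ Y, pr E (Hop A c (rl (swap q l) (cns h z))) =
      if h ∈ A ∧ E ∉ A then Hop A (c - 1) (rl (swap E h) (rl (swap q l) z)) else 0 := by
    intro l hl
    rw [Finset.mem_inter] at hl
    rw [rl_cns_fix (ne3 hh hq) (ne3 hh hl.2),
      pr_Hop_ne hh hE A c (rl_swap_mem hq hl.2 hz)]
  rw [Finset.sum_congr rfl key]
  split_ifs
  · rfl
  · exact Finset.sum_const_zero

theorem t3_self (hh : h ∉ Y) (hq : q ∈ Y) (hhB : h ∉ B \ A) (c : ℤ) {z : Wd α}
    (hz : z ∈ WS Y) :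
    pr h (∑ l ∈ (B \ A) ∩ insert h Y, Hop A c (rl (swap q l) (cns h z))) =
      ∑ l ∈ (B \ A) ∩ Y, Hop A c (rl (swap q l) z) := by
  rw [map_sum, inter_ins hhB]
  refine Finset.sum_congr rfl fun l hl => ?_
  rw [Finset.mem_inter] at hl
  rw [rl_cns_fix (ne3 hh hq) (ne3 hh hl.2),
    pr_Hop_self hh A c (rl_swap_mem hq hl.2 hz)]

theorem inter_ins' (hh : h ∈ B \ A) : (B \ A) ∩ insert h Y = insert h ((B \ A) ∩ Y) := by
  rw [Finset.inter_insert_of_mem hh]

/-- the sum, the first letter is in `B \ A` -/
theorem t3b_ne (hh : h ∉ Y) (hq : q ∈ Y) (hqA : q ∈ A) (hE : E ∈ Y) (hhB : h ∈ B \ A) (c : ℤ)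
    {z : Wd α} (hz : z ∈ WS Y) :
    pr E (∑ l ∈ (B \ A) ∩ insert h Y, Hop A c (rl (swap q l) (cns h z))) =
      if E = q then Hop A c (rl (swap q h) z) else
        if E ∉ A then Hop A (c - 1) (rl (swap E q) (rl (swap q h) z)) else 0 := by
  have hhA : h ∉ A := (Finset.mem_sdiff.1 hhB).2
  rw [map_sum, inter_ins' hhB, Finset.sum_insert fun h' => hh (Finset.mem_inter.1 h').2]
  have key : ∑ l ∈ (B \ A) ∩ Y, pr E (Hop A c (rl (swap q l) (cns h z))) = 0 := by
    refine Finset.sum_eq_zero fun l hl => ?_
    rw [Finset.mem_inter] at hl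
    rw [rl_cns_fix (ne3 hh hq) (ne3 hh hl.2),
      pr_Hop_ne hh hE A c (rl_swap_mem hq hl.2 hz), if_neg fun h' => hhA h'.1]
  rw [key, add_zero, rl_cns, swap_apply_right]
  have hy : rl (swap q h) z ∈ WS ((insert h Y).erase q) := swap_mem hh hq hz
  have hq' : q ∉ (insert h Y).erase q := Finset.notMem_erase _ _
  by_cases hEq : E = q
  · subst hEq
    rw [if_pos rfl, pr_Hop_self hq' A c hy]
  · rw [if_neg hEq, pr_Hop_ne hq' (Finset.mem_erase.2 ⟨hEq, Finset.mem_insert_of_mem hE⟩) A c hy]
    by_cases hEA : E ∈ A
    · rw [if_neg fun h' => h'.2 hEA, if_neg fun h' => h' hEA]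
    · rw [if_pos ⟨hqA, hEA⟩, if_pos hEA]

theorem t3b_self (hh : h ∉ Y) (hq : q ∈ Y) (hqA : q ∈ A) (hhB : h ∈ B \ A) (c : ℤ)
    {z : Wd α} (hz : z ∈ WS Y) :
    pr h (∑ l ∈ (B \ A) ∩ insert h Y, Hop A c (rl (swap q l) (cns h z))) =
      ∑ l ∈ (B \ A) ∩ Y, Hop A c (rl (swap q l) z) + Hop A (c - 1) z := by
  have hhA : h ∉ A := (Finset.mem_sdiff.1 hhB).2
  have hhq : h ≠ q := fun h' => hh (h' ▸ hq)
  rw [map_sum, inter_ins' hhB, Finset.sum_insert fun h' => hh (Finset.mem_inter.1 h').2, add_comm]
  congr 1
  · refine Finset.sum_congr rfl fun l hl => ?_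
    rw [Finset.mem_inter] at hl
    rw [rl_cns_fix hhq (ne3 hh hl.2), pr_Hop_self hh A c (rl_swap_mem hq hl.2 hz)]
  · have hy : rl (swap q h) z ∈ WS ((insert h Y).erase q) := swap_mem hh hq hz
    have hq' : q ∉ (insert h Y).erase q := Finset.notMem_erase _ _
    rw [rl_cns, swap_apply_right, pr_Hop_ne hq'
      (Finset.mem_erase.2 ⟨hhq, Finset.mem_insert_self _ _⟩) A c hy, if_pos ⟨hqA, hhA⟩, rl_rl,
      swap_comm h q, swap_mul_self, rl_one]

end t3

/-- the exchange of two letters of the set -/
theorem cj_both3 {X : Finset α} {h E : α} (hh : h ∉ X) {S : Finset α} (h1 : h ∈ S) (h2 : E ∈ S)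
    (k : ℤ) {z : Wd α} (hz : z ∈ WS X) :
    rl (swap E h) (Hop S k z) = Hop S k (rl (swap E h) z) := by
  rw [cj_in hh h2 k hz, Finset.insert_eq_of_mem h1]

section t1

variable {Y A B : Finset α} {q h E : α}

/-- the product, another letter -/
theorem t1_ne (hh : h ∉ Y) (hE : E ∈ Y) (hqA : q ∈ A) (hAB : A ⊆ B) (hq : q ∈ Y) (k e : ℤ)
    {z : Wd α} (hz : z ∈ WS Y) :
    pr E (Hop A k (Hop (B.erase q) e (cns h z))) =
      (if h ∈ A ∧ E ∉ A then Hop A (k - 1) (rl (swap E h) (Hop (B.erase q) e z)) else 0) +
      (if h ∈ B ∧ (E = q ∨ E ∉ B) then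
        Hop A k (Hop (B.erase q) (e - 1) (rl (swap E h) z)) else 0) +
      if h ∈ B ∧ E ∉ A then
        Hop A (k - 1) (rl (swap E q) (Hop (B.erase q) (e - 1) (rl (swap q h) z))) else 0 := by
  have hhq : h ≠ q := ne3 hh hq
  have e1 : h ∈ B.erase q ↔ h ∈ B := by
    rw [Finset.mem_erase]
    exact ⟨fun h' => h'.2, fun h' => ⟨hhq, h'⟩⟩
  have e2 : E ∉ B.erase q ↔ (E = q ∨ E ∉ B) := by
    rw [Finset.mem_erase]
    tauto
  rw [pr_two_ne hh hE A (B.erase q) k e hz, sing hqA hAB hq, Finset.sum_singleton]
  simp only [e1, e2]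

/-- the product, the same letter -/
theorem t1_self (hh : h ∉ Y) (hqA : q ∈ A) (hAB : A ⊆ B) (hq : q ∈ Y) (k e : ℤ)
    {z : Wd α} (hz : z ∈ WS Y) :
    pr h (Hop A k (Hop (B.erase q) e (cns h z))) = Hop A k (Hop (B.erase q) e z) +
      if h ∉ A ∧ h ∈ B then Hop A (k - 1) (Hop B (e - 1) z) else 0 := by
  have hhq : h ≠ q := ne3 hh hq
  have e1 : h ∈ B.erase q ↔ h ∈ B := by
    rw [Finset.mem_erase]
    exact ⟨fun h' => h'.2, fun h' => ⟨hhq, h'⟩⟩
  rw [pr_two_self hh A (B.erase q) k e hz, sing hqA hAB hq, Finset.sum_singleton]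
  simp only [e1]
  by_cases h1 : h ∉ A ∧ h ∈ B
  · rw [if_pos h1, if_pos h1]
    have hy : rl (swap q h) z ∈ WS ((insert h Y).erase q) := swap_mem hh hq hz
    rw [cj_in (Finset.notMem_erase _ _) (Finset.mem_erase.2 ⟨hhq, h1.2⟩) (e - 1) hy,
      Finset.insert_erase (hAB hqA), rl_rl, swap_comm h q, swap_mul_self, rl_one]
  · rw [if_neg h1, if_neg h1]

end t1

theorem rho_pos_aux (n : ℕ) : ∀ X : Finset α, X.card = n → ∀ (A B : Finset α) (q : α)
    (k e : ℤ), q ∈ A → A ⊆ B → q ∈ X → (((B \ A) ∩ X).card : ℤ) ≤ k → 1 ≤ e →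
    ∀ z : Wd α, z ∈ WS X → WN z → WN (rho X A B q k e z) := by
  induction n with
  | zero =>
    intro X hX A B q k e _ _ hq
    rw [Finset.card_eq_zero] at hX
    rw [hX] at hq
    simp at hq
  | succ n ih =>
    intro X hX A B q k e hqA hAB hqX hk he z hz hn
    have hk0 : 0 ≤ k := (Int.natCast_nonneg _).trans hk
    rcases he.eq_or_lt with rfl | he
    · rw [rho_one hqA hAB hqX k hz]
      exact two_pos hAB hk0 (by norm_num) hk hz hn
    rw [← rhoE_apply]
    refine WN_of_words (rhoE X A B q k e) ?_ hz hn
    intro u hu huX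
    rw [rhoE_apply]
    clear hz hn z
    match u, hu, huX with
    | [], _, huX =>
      rw [List.toFinset_nil] at huX
      rw [← huX] at hX
      simp at hX
    | h :: u, hu, huX =>
      obtain ⟨hq', hu'⟩ := List.nodup_cons.1 hu
      obtain ⟨Y, hY⟩ : ∃ Y, Y = u.toFinset := ⟨_, rfl⟩
      have hh : h ∉ Y := fun h' => hq' (List.mem_toFinset.1 (hY ▸ h'))
      have hXi : X = insert h Y := by
        rw [← huX, List.toFinset_cons, hY]
      have hz : wd u ∈ WS Y := wd_mem u hu' hY.symm
      have hn : WN (wd u) := WN.wd u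
      rw [← cns_wd]
      generalize wd u = z at hz hn
      clear hu hq' hu' huX hY u
      subst hXi
      have hYc : Y.card = n := by
        rw [Finset.card_insert_of_notMem hh] at hX
        omega
      have hsub : Y ⊆ insert h Y := Finset.subset_insert _ _
      have gY := card_le3 (A := A) (B := B) hsub
      refine WN_of_pr ⟨h, Finset.mem_insert_self _ _⟩
        (rho_mem A B k e hqX (cns_mem hh hz)) ?_
      intro E hE
      have ex : pr E (rho (insert h Y) A B q k e (cns h z)) =
          pr E (Hop A k (Hop (B.erase q) e (cns h z))) -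
            pr E (Hop (A.erase q) (k + e) (cns h z)) -
            pr E (∑ l ∈ (B \ A) ∩ insert h Y, Hop A (k + e - 1) (rl (swap q l) (cns h z))) := by
        unfold rho
        rw [map_sub, map_sub]
      rw [ex]
      clear ex
      by_cases hqh : q = h
      · -- the first letter is `q`
        subst hqh
        rw [t3q hh hqA (k + e - 1) hz hE]
        rcases Finset.mem_insert.1 hE with rfl | hEY
        · rw [pr_two_self hh A _ k e hz, if_neg fun h' => h'.1 hqA, add_zero,
            pr_Hop_self hh _ _ hz, if_neg fun h' => (Finset.mem_sdiff.1 h').2 hqA, sub_zero]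
          exact two_er hAB hh hk0 (by omega) (by omega) hz hn
        · have hzE : rl (swap E q) z ∈ WS ((insert q Y).erase E) := swap_mem hh hEY hz
          have hnE : WN (rl (swap E q) z) := WN_rl _ hn
          rw [pr_two_ne hh hEY A _ k e hz, sing0 hAB hh, Finset.sum_empty, ite_self, add_zero,
            if_neg (fun h' => Finset.notMem_erase q B h'.1 :
              ¬ (q ∈ B.erase q ∧ E ∉ B.erase q)), add_zero,
            pr_Hop_ne hh hEY _ _ hz,
            if_neg (fun h' => Finset.notMem_erase q A h'.1 :
              ¬ (q ∈ A.erase q ∧ E ∉ A.erase q)), sub_zero]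
          by_cases hEA : E ∈ A
          · rw [if_neg fun h' => h'.2 hEA, if_neg fun h' => (Finset.mem_sdiff.1 h').2 hEA,
              sub_zero]
            exact WN.zero
          · have hEq : E ≠ q := fun h' => hEA (h' ▸ hqA)
            rw [if_pos ⟨hqA, hEA⟩]
            by_cases hEB : E ∈ B
            · rw [if_pos (Finset.mem_sdiff.2 ⟨hEB, hEA⟩),
                cj_in hh (Finset.mem_erase.2 ⟨hEq, hEB⟩) e hz, Finset.insert_erase (hAB hqA)]
              have g := card_lt3 (A := A) hE hEB hEA
              have e1 : k + e - 1 = k - 1 + e := by ring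
              rw [e1]
              exact two_pos hAB (by omega) (by omega) (by omega) hzE hnE
            · rw [if_neg fun h' => hEB (Finset.mem_sdiff.1 h').1, sub_zero,
                cj_out3 hh (fun h' => hEB (Finset.mem_of_mem_erase h')) e hz]
              exact WN_Hop3 _ _ (Hop_mem _ _ hzE) (WN_Hop3 _ _ hzE hnE)
      · -- the first letter is not `q`
        have hq : q ∈ Y := (Finset.mem_insert.1 hqX).resolve_left hqh
        have hhq : h ≠ q := fun h' => hqh h'.symm
        have hqB : q ∈ B := hAB hqA
        rcases Finset.mem_insert.1 hE with rfl | hEY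
        · -- the same letter
          rw [t1_self hh hqA hAB hq k e hz, pr_Hop_self hh _ _ hz]
          by_cases hhB : E ∈ B \ A
          · have hhB' := Finset.mem_sdiff.1 hhB
            rw [if_pos ⟨hhB'.2, hhB'.1⟩, t3b_self hh hq hqA hhB (k + e - 1) hz]
            have g := card_lt3 (A := A) hE hhB'.1 hhB'.2
            rw [Finset.erase_insert hh] at g
            have e1 : k + e - 1 - 1 = k - 1 + (e - 1) := by ring
            rw [e1]
            have p1 := ih Y hYc A B q k e hqA hAB hq (by omega) (by omega) z hz hn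
            have p2 := two_pos hAB (a := k - 1) (b := e - 1) (by omega) (by omega) (by omega)
              hz hn
            have p3 := WN.add p1 p2
            unfold rho at p3
            convert p3 using 1
            abel
          · rw [if_neg fun h' => hhB (Finset.mem_sdiff.2 ⟨h'.2, h'.1⟩), add_zero,
              t3_self hh hq hhB (k + e - 1) hz]
            exact ih Y hYc A B q k e hqA hAB hq (by omega) (by omega) z hz hn
        · -- another letter
          have hEh : E ≠ h := fun h' => hh (h' ▸ hEY)
          have hzE : rl (swap E h) z ∈ WS ((insert h Y).erase E) := swap_mem hh hEY hz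
          have hnE : WN (rl (swap E h) z) := WN_rl _ hn
          have hZc : ((insert h Y).erase E).card = n := by
            rw [Finset.card_erase_of_mem hE, hX]
            rfl
          have gZ := card_le3 (A := A) (B := B) (Finset.erase_subset E (insert h Y))
          have hy : rl (swap q h) z ∈ WS ((insert h Y).erase q) := swap_mem hh hq hz
          have hq' : q ∉ (insert h Y).erase q := Finset.notMem_erase _ _
          rw [t1_ne hh hEY hqA hAB hq k e hz, pr_Hop_ne hh hEY _ _ hz]
          have e1 : k + e - 1 - 1 = k + (e - 1) - 1 := by ring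
          have e2 : k + e - 1 = k + (e - 1) := by ring
          have a1 : (h ∈ A.erase q ∧ E ∉ A.erase q) ↔ (h ∈ A ∧ (E = q ∨ E ∉ A)) := by
            rw [Finset.mem_erase, Finset.mem_erase]
            tauto
          simp only [a1]
          by_cases hhA : h ∈ A
          · have hhB := hAB hhA
            have hhs : h ∉ B \ A := fun h' => (Finset.mem_sdiff.1 h').2 hhA
            rw [t3_ne hh hq hEY hhs (k + e - 1) hz]
            simp only [hhA, hhB, true_and]
            by_cases hEA : E ∈ A
            · have hEB := hAB hEA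
              simp only [hEA, hEB, not_true_eq_false, or_false, if_false, zero_add, add_zero,
                sub_zero]
              by_cases hEq : E = q
              · subst hEq
                simp only [if_true]
                rw [e2]
                exact two_er hAB (Finset.notMem_erase _ _) hk0 (by omega) (by omega) hzE hnE
              · simp only [hEq, if_false, sub_zero]
                exact WN.zero
            · have hEq : E ≠ q := fun h' => hEA (h' ▸ hqA)
              have hqZ : q ∈ (insert h Y).erase E := Finset.mem_erase.2 ⟨hEq.symm, hqX⟩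
              have hhZ : h ∈ (insert h Y).erase E :=
                Finset.mem_erase.2 ⟨hEh.symm, Finset.mem_insert_self _ _⟩
              have hw : rl (swap q h) (rl (swap E h) z) ∈ WS ((insert h Y).erase E) :=
                rl_swap_mem hqZ hhZ hzE
              have hnw : WN (rl (swap q h) (rl (swap E h) z)) := WN_rl _ hnE
              have s1 : rl (swap E q) (rl (swap q h) z) = rl (swap q h) (rl (swap E h) z) := by
                rw [rl_rl, rl_rl, sw1 hEh hqh hEq]
              simp only [hEA, hEq, not_false_eq_true, or_true, if_true, false_or]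
              have s2 : ∀ l ∈ (B \ A) ∩ (insert h Y).erase E, l ∈ Y ∧
                  rl (swap E h) (rl (swap q l) z) = rl (swap q l) (rl (swap E h) z) := by
                intro l hl
                rw [Finset.mem_inter, Finset.mem_sdiff, Finset.mem_erase, Finset.mem_insert] at hl
                have hlh : l ≠ h := fun h' => hl.1.2 (h' ▸ hhA)
                refine ⟨hl.2.2.resolve_left hlh, ?_⟩
                rw [rl_rl, rl_rl, sw2 hEq hl.2.1.symm hhq hlh.symm]
              by_cases hEB : E ∈ B
              · simp only [hEB, not_true_eq_false, if_false, add_zero]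
                rw [cj_both3 hh (Finset.mem_erase.2 ⟨hhq, hhB⟩) (Finset.mem_erase.2 ⟨hEq, hEB⟩)
                  e hz, cj_in hq' (Finset.mem_erase.2 ⟨hEq, hEB⟩) (e - 1) hy,
                  Finset.insert_erase hqB, s1]
                have hs : (B \ A) ∩ Y = insert E ((B \ A) ∩ (insert h Y).erase E) := by
                  ext x
                  simp only [Finset.mem_insert, Finset.mem_inter, Finset.mem_sdiff,
                    Finset.mem_erase]
                  constructor
                  · rintro ⟨h1, h2⟩
                    by_cases hxE : x = E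
                    · exact Or.inl hxE
                    · exact Or.inr ⟨h1, hxE, Or.inr h2⟩
                  · rintro (rfl | ⟨h1, _, rfl | h2⟩)
                    · exact ⟨⟨hEB, hEA⟩, hEY⟩
                    · exact absurd hhA h1.2
                    · exact ⟨h1, h2⟩
                have s3 : rl (swap E h) (rl (swap q E) z) =
                    rl (swap q h) (rl (swap E h) z) := by
                  rw [rl_rl, rl_rl, sw3 hEh hqh hEq]
                have hs' : ∑ l ∈ (B \ A) ∩ Y,
                    Hop A (k + e - 1 - 1) (rl (swap E h) (rl (swap q l) z)) =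
                    Hop A (k - 1 + (e - 1)) (rl (swap q h) (rl (swap E h) z)) +
                    ∑ l ∈ (B \ A) ∩ (insert h Y).erase E,
                      Hop A (k - 1 + e - 1) (rl (swap q l) (rl (swap E h) z)) := by
                  rw [hs, Finset.sum_insert (fun h' =>
                    Finset.notMem_erase E _ (Finset.mem_inter.1 h').2), s3]
                  have e3 : k + e - 1 - 1 = k - 1 + (e - 1) := by ring
                  have e4 : k - 1 + e - 1 = k - 1 + (e - 1) := by ring
                  rw [e3, e4]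
                  congr 1
                  exact Finset.sum_congr rfl fun l hl => by rw [(s2 l hl).2]
                rw [hs']
                have g := card_lt3 (A := A) hE hEB hEA
                have p1 := ih _ hZc A B q (k - 1) e hqA hAB hqZ (by omega) (by omega) _ hzE hnE
                have p2 := two_pos hAB (a := k - 1) (b := e - 1) (by omega) (by omega)
                  (by omega) hw hnw
                have p3 := WN.add p1 p2
                unfold rho at p3
                have e5 : k - 1 + e = k + e - 1 := by ring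
                rw [e5] at p3 ⊢
                convert p3 using 1
                abel
              · simp only [hEB, not_false_eq_true, if_true]
                rw [cj_out3 hh (fun h' => hEB (Finset.mem_of_mem_erase h')) e hz,
                  cj_out3 hq' (fun h' => hEB (Finset.mem_of_mem_erase h')) (e - 1) hy, s1]
                have hs : (B \ A) ∩ Y = (B \ A) ∩ (insert h Y).erase E := by
                  ext x
                  simp only [Finset.mem_insert, Finset.mem_inter, Finset.mem_sdiff,
                    Finset.mem_erase]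
                  constructor
                  · rintro ⟨h1, h2⟩
                    exact ⟨h1, fun h' => hEB (h' ▸ h1.1), Or.inr h2⟩
                  · rintro ⟨h1, _, rfl | h2⟩
                    · exact absurd hhA h1.2
                    · exact ⟨h1, h2⟩
                have hs' : ∑ l ∈ (B \ A) ∩ Y,
                    Hop A (k + e - 1 - 1) (rl (swap E h) (rl (swap q l) z)) =
                    ∑ l ∈ (B \ A) ∩ (insert h Y).erase E,
                      Hop A (k + (e - 1) - 1) (rl (swap q l) (rl (swap E h) z)) := by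
                  rw [hs, e1]
                  exact Finset.sum_congr rfl fun l hl => by rw [(s2 l hl).2]
                rw [hs', e2]
                have p1 := ih _ hZc A B q k (e - 1) hqA hAB hqZ (by omega) (by omega) _ hzE hnE
                have p2 := WN_Hop3 A (k - 1) (Hop_mem ((B.erase q).erase h) e hzE)
                  (WN_Hop3 _ _ hzE hnE)
                have p3 := WN_Hop3 A (k - 1) (Hop_mem ((B.erase q).erase q) (e - 1) hw)
                  (WN_Hop3 _ _ hw hnw)
                have p4 := WN.add (WN.add p1 p2) p3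
                unfold rho at p4
                convert p4 using 1
                abel
          · simp only [hhA, false_and, if_false, zero_add, sub_zero]
            by_cases hhB : h ∈ B
            · have hhs : h ∈ B \ A := Finset.mem_sdiff.2 ⟨hhB, hhA⟩
              rw [t3b_ne hh hq hqA hEY hhs (k + e - 1) hz]
              simp only [hhB, true_and]
              by_cases hEA : E ∈ A
              · have hEB := hAB hEA
                simp only [hEA, hEB, not_true_eq_false, or_false, if_false, add_zero]
                by_cases hEq : E = q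
                · subst hEq
                  simp only [if_true]
                  rw [e2, Hop_er (Finset.notMem_erase E (insert h Y)) A (k + (e - 1)) hzE]
                  exact two_er hAB (Finset.notMem_erase _ _) hk0 (by omega) (by omega) hzE hnE
                · simp only [hEq, if_false, sub_zero]
                  exact WN.zero
              · have hEq : E ≠ q := fun h' => hEA (h' ▸ hqA)
                have hqZ : q ∈ (insert h Y).erase E := Finset.mem_erase.2 ⟨hEq.symm, hqX⟩
                have hhZ : h ∈ (insert h Y).erase E :=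
                  Finset.mem_erase.2 ⟨hEh.symm, Finset.mem_insert_self _ _⟩
                have hw : rl (swap q h) (rl (swap E h) z) ∈ WS ((insert h Y).erase E) :=
                  rl_swap_mem hqZ hhZ hzE
                have hnw : WN (rl (swap q h) (rl (swap E h) z)) := WN_rl _ hnE
                have s1 : rl (swap E q) (rl (swap q h) z) =
                    rl (swap q h) (rl (swap E h) z) := by
                  rw [rl_rl, rl_rl, sw1 hEh hqh hEq]
                simp only [hEA, hEq, not_false_eq_true, if_true, if_false, false_or]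
                by_cases hEB : E ∈ B
                · simp only [hEB, not_true_eq_false, if_false, zero_add]
                  rw [cj_in hq' (Finset.mem_erase.2 ⟨hEq, hEB⟩) (e - 1) hy,
                    Finset.insert_erase hqB, s1]
                  have g := card_lt3 (A := A) hE hEB hEA
                  have e3 : k + e - 1 - 1 = k - 1 + (e - 1) := by ring
                  rw [e3]
                  exact two_pos hAB (by omega) (by omega) (by omega) hw hnw
                · simp only [hEB, not_false_eq_true, if_true]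
                  rw [cj_out3 hq' (fun h' => hEB (Finset.mem_of_mem_erase h')) (e - 1) hy, s1]
                  have hm : h ∈ (B \ A) ∩ (insert h Y).erase E :=
                    Finset.mem_inter.2 ⟨hhs, hhZ⟩
                  have p1 := ih _ hZc A B q k (e - 1) hqA hAB hqZ (by omega) (by omega) _
                    hzE hnE
                  have p2 := WN_Hop3 (A.erase q) (k + (e - 1)) hzE hnE
                  have p3 := WN_Hop3 A (k - 1) (Hop_mem ((B.erase q).erase q) (e - 1) hw)
                    (WN_Hop3 _ _ hw hnw)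
                  have p4 : WN (∑ l ∈ ((B \ A) ∩ (insert h Y).erase E).erase h,
                      Hop A (k + (e - 1) - 1) (rl (swap q l) (rl (swap E h) z))) := by
                    refine WN.sum _ _ fun l hl => ?_
                    have hl' := (Finset.mem_inter.1 (Finset.mem_of_mem_erase hl)).2
                    exact WN_Hop3 _ _ (rl_swap_mem hqZ hl' hzE) (WN_rl _ hnE)
                  have p5 := WN.add (WN.add (WN.add p1 p2) p3) p4
                  unfold rho at p5
                  rw [← Finset.add_sum_erase _ _ hm] at p5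
                  rw [e1]
                  convert p5 using 1
                  abel
            · have hhs : h ∉ B \ A := fun h' => hhB (Finset.mem_sdiff.1 h').1
              rw [t3_ne hh hq hEY hhs (k + e - 1) hz]
              simp only [hhA, hhB, false_and, if_false, add_zero, sub_zero]
              exact WN.zero

theorem rho_pos {X A B : Finset α} {q : α} (hqA : q ∈ A) (hAB : A ⊆ B) (hq : q ∈ X) {k e : ℤ}
    (hk : (((B \ A) ∩ X).card : ℤ) ≤ k) (he : 1 ≤ e) {z : Wd α} (hz : z ∈ WS X) (hn : WN z) :
    WN (rho X A B q k e z) :=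
  rho_pos_aux _ X rfl A B q k e hqA hAB hq hk he z hz hn

section dd

variable {X : Finset α} {h E : α} {A B : Finset α}

theorem pd_ne (hh : h ∉ X) (hE : E ∈ X) (hAB : A ⊆ B) (a b : ℤ) {z : Wd α} (hz : z ∈ WS X) :
    pr E (Hop A a (Hop B b (cns h z))) =
      (if h ∈ A ∧ E ∉ A then Hop A (a - 1) (rl (swap E h) (Hop B b z)) else 0) +
      (if h ∈ B ∧ E ∉ B then Hop A a (Hop B (b - 1) (rl (swap E h) z)) else 0) := by
  rw [pr_two_ne hh hE A B a b hz]
  have e : (X ∩ A) \ B = ∅ := by
    rw [Finset.sdiff_eq_empty_iff_subset]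
    exact Finset.inter_subset_right.trans hAB
  rw [e, Finset.sum_empty, ite_self, add_zero]

theorem pd_self (hh : h ∉ X) (hAB : A ⊆ B) (a b : ℤ) {z : Wd α} (hz : z ∈ WS X) :
    pr h (Hop A a (Hop B b (cns h z))) = Hop A a (Hop B b z) := by
  rw [pr_two_self hh A B a b hz]
  have e : (X ∩ A) \ B = ∅ := by
    rw [Finset.sdiff_eq_empty_iff_subset]
    exact Finset.inter_subset_right.trans hAB
  rw [e, Finset.sum_empty, ite_self, add_zero]

end dd

/-- the operator `Dd` -/
noncomputable def DdE (A B : Finset α) (a b : ℤ) : Module.End ℤ (Wd α) :=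
  Hop A a * Hop B b - Hop A (a + b - 1) * Hop B 1

theorem DdE_apply (A B : Finset α) (a b : ℤ) (z : Wd α) : DdE A B a b z = Dd A B a b z := rfl

theorem Dd_pos_aux (n : ℕ) : ∀ X : Finset α, X.card = n → ∀ (A B : Finset α) (a b : ℤ),
    A ⊆ B → (((B \ A) ∩ X).card : ℤ) + 1 ≤ a → 1 ≤ b →
    ∀ z : Wd α, z ∈ WS X → WN z → WN (Dd A B a b z) := by
  induction n with
  | zero =>
    intro X hX A B a b _ ha hb z hz hn
    refine WN_of_words (DdE A B a b) ?_ hz hn
    intro u hu huX
    rw [Finset.card_eq_zero] at hX
    have hu' : u = [] := by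
      rw [hX, List.toFinset_eq_empty_iff] at huX
      exact huX
    subst hu'
    rw [DdE_apply]
    unfold Dd
    have e1 : Hop B b (wd ([] : List α)) = 0 := by
      rw [Hop_wd, hop_nil, if_neg (by omega)]
    have e2 : Hop B 1 (wd ([] : List α)) = 0 := by
      rw [Hop_wd, hop_nil, if_neg (by norm_num)]
    rw [e1, e2, map_zero, map_zero, sub_zero]
    exact WN.zero
  | succ n ih =>
    intro X hX A B a b hAB ha hb z hz hn
    rcases hb.eq_or_lt with rfl | hb
    · unfold Dd
      have e : a + 1 - 1 = a := by ring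
      rw [e, sub_self]
      exact WN.zero
    rw [← DdE_apply]
    refine WN_of_words (DdE A B a b) ?_ hz hn
    intro u hu huX
    rw [DdE_apply]
    clear hz hn z
    match u, hu, huX with
    | [], _, huX =>
      rw [List.toFinset_nil] at huX
      rw [← huX] at hX
      simp at hX
    | h :: u, hu, huX =>
      obtain ⟨hq', hu'⟩ := List.nodup_cons.1 hu
      obtain ⟨Y, hY⟩ : ∃ Y, Y = u.toFinset := ⟨_, rfl⟩
      have hh : h ∉ Y := fun h' => hq' (List.mem_toFinset.1 (hY ▸ h'))
      have hXi : X = insert h Y := by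
        rw [← huX, List.toFinset_cons, hY]
      have hz : wd u ∈ WS Y := wd_mem u hu' hY.symm
      have hn : WN (wd u) := WN.wd u
      rw [← cns_wd]
      generalize wd u = z at hz hn
      clear hu hq' hu' huX hY u
      subst hXi
      have hYc : Y.card = n := by
        rw [Finset.card_insert_of_notMem hh] at hX
        omega
      have hsub : Y ⊆ insert h Y := Finset.subset_insert _ _
      have gY := card_le3 (A := A) (B := B) hsub
      have hzX : Dd A B a b (cns h z) ∈ WS (insert h Y) := by
        unfold Dd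
        exact Submodule.sub_mem _ (Hop_mem _ _ (Hop_mem _ _ (cns_mem hh hz)))
          (Hop_mem _ _ (Hop_mem _ _ (cns_mem hh hz)))
      refine WN_of_pr ⟨h, Finset.mem_insert_self _ _⟩ hzX ?_
      intro E hE
      rcases Finset.mem_insert.1 hE with rfl | hEY
      · have ex : pr E (Dd A B a b (cns E z)) = Dd A B a b z := by
          unfold Dd
          rw [map_sub, pd_self hh hAB a b hz, pd_self hh hAB (a + b - 1) 1 hz]
        rw [ex]
        exact ih Y hYc A B a b hAB (by omega) (by omega) z hz hn
      · have hEh : E ≠ h := fun h' => hh (h' ▸ hEY)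
        have hzE : rl (swap E h) z ∈ WS ((insert h Y).erase E) := swap_mem hh hEY hz
        have hnE : WN (rl (swap E h) z) := WN_rl _ hn
        have hZc : ((insert h Y).erase E).card = n := by
          rw [Finset.card_erase_of_mem hE, hX]
          rfl
        have gZ := card_le3 (A := A) (B := B) (Finset.erase_subset E (insert h Y))
        have hhZ : h ∈ (insert h Y).erase E :=
          Finset.mem_erase.2 ⟨hEh.symm, Finset.mem_insert_self _ _⟩
        have ex : pr E (Dd A B a b (cns h z)) =
            ((if h ∈ A ∧ E ∉ A then Hop A (a - 1) (rl (swap E h) (Hop B b z)) else 0) +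
              (if h ∈ B ∧ E ∉ B then Hop A a (Hop B (b - 1) (rl (swap E h) z)) else 0)) -
            ((if h ∈ A ∧ E ∉ A then Hop A (a + b - 1 - 1) (rl (swap E h) (Hop B 1 z)) else 0) +
              (if h ∈ B ∧ E ∉ B then Hop A (a + b - 1) (rl (swap E h) z) else 0)) := by
          unfold Dd
          rw [map_sub, pd_ne hh hEY hAB a b hz, pd_ne hh hEY hAB (a + b - 1) 1 hz]
          have e0 : (1 : ℤ) - 1 = 0 := by norm_num
          rw [e0]
          simp only [Hop_zero, Module.End.one_apply]
        rw [ex]
        clear ex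
        by_cases hEA : E ∈ A
        · have hEB := hAB hEA
          simp only [hEA, hEB, not_true_eq_false, and_false, if_false, add_zero, sub_zero]
          exact WN.zero
        by_cases hhA : h ∈ A
        · have hhB := hAB hhA
          simp only [hhA, hhB, hEA, true_and, not_false_eq_true, if_true]
          by_cases hEB : E ∈ B
          · simp only [hEB, not_true_eq_false, if_false, add_zero]
            rw [cj_both3 hh hhB hEB b hz, cj_both3 hh hhB hEB 1 hz]
            have g := card_lt3 (A := A) hE hEB hEA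
            have p := ih _ hZc A B (a - 1) b hAB (by omega) (by omega) _ hzE hnE
            unfold Dd at p
            have e1 : a - 1 + b - 1 = a + b - 1 - 1 := by ring
            rw [e1] at p
            exact p
          · simp only [hEB, not_false_eq_true, if_true]
            rw [cj_out3 hh hEB b hz, cj_out3 hh hEB 1 hz]
            have p1 := ih _ hZc A B a (b - 1) hAB (by omega) (by omega) _ hzE hnE
            have p2 := rho_pos hhA hAB hhZ (k := a - 1) (e := b) (by omega) (by omega) hzE hnE
            have p3 := WN.add p1 p2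
            have hid := Hop_id1 hhA hAB hhZ (a + b - 1) hzE
            unfold Dd rho at p3
            have e1 : a - 1 + b - 1 = a + b - 1 - 1 := by ring
            have e2 : a + (b - 1) - 1 = a + b - 1 - 1 := by ring
            have e3 : a - 1 + b = a + b - 1 := by ring
            rw [e1, e2, e3] at p3
            rw [hid]
            convert p3 using 1
            abel
        · simp only [hhA, false_and, if_false, zero_add]
          by_cases hhB : h ∈ B
          · by_cases hEB : E ∈ B
            · simp only [hEB, not_true_eq_false, and_false, if_false, sub_zero]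
              exact WN.zero
            · simp only [hhB, hEB, true_and, not_false_eq_true, if_true]
              have e1 : a + b - 1 = a + (b - 1) := by ring
              rw [e1]
              exact two_pos hAB (by omega) (by omega) (by omega) hzE hnE
          · simp only [hhB, false_and, if_false, sub_zero]
            exact WN.zero

theorem Dd_pos {X A B : Finset α} (hAB : A ⊆ B) {a b : ℤ}
    (ha : (((B \ A) ∩ X).card : ℤ) + 1 ≤ a) (hb : 1 ≤ b) {z : Wd α} (hz : z ∈ WS X)
    (hn : WN z) : WN (Dd A B a b z) :=
  Dd_pos_aux _ X rfl A B a b hAB ha hb z hz hn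

end H50R
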